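import Pool.Agent.Helper24K9.PT.Stm

/-!
[DS] the leading coefficients have few large prime factors
-/

set_option autoImplicit false

namespace Pool.Agent.Helper24K9.PT

open Finset Filter Topology
open Pool.Agent.Helper24K9.EL (DS)
open Pool.Agent.Helper24K9.PL (mem)
open Pool.Agent.Helper82K9.PR (Bx card_Bx)

namespace DsL

lemma cardN (H : ℕ) : (Icc (-(H : ℤ)) H).card = 2 * H + 1 := by
  rw [Int.card_Icc]; omega

lemma cls (H p : ℕ) (hp : 0 < p) (T : Finset ℤ) (hT : T ⊆ Icc (-(H : ℤ)) H)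
    (hc : ∀ s ∈ T, ∀ t ∈ T, (p : ℤ) ∣ s - t) : T.card ≤ 2 * H / p + 1 := by
  have hp' : (0 : ℤ) < p := by exact_mod_cast hp
  have h0 : ∀ t ∈ T, 0 ≤ (t + H) / p ∧ (t + H) / p ≤ ((2 * H / p : ℕ) : ℤ) := by
    intro t ht
    have h1 := mem_Icc.mp (hT ht)
    refine ⟨Int.ediv_nonneg (by linarith) hp'.le, ?_⟩
    have h2 : (t + H) / (p : ℤ) ≤ (2 * H) / p := Int.ediv_le_ediv hp' (by linarith)
    push_cast
    exact h2
  have h1 : T.card ≤ (range (2 * H / p + 1)).card := by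
    apply card_le_card_of_injOn (fun t => ((t + H) / (p : ℤ)).toNat)
    · intro t ht
      have h2 := h0 t ht
      rw [coe_range, Set.mem_Iio]
      show ((t + H) / (p : ℤ)).toNat < 2 * H / p + 1
      generalize (t + (H : ℤ)) / (p : ℤ) = a at h2
      generalize 2 * H / p = b at h2 ⊢
      omega
    · intro s hs t ht hst
      have h2 := h0 s hs
      have h3 := h0 t ht
      have h4 : (s + H) / (p : ℤ) = (t + H) / (p : ℤ) := by
        have h5 : ((s + H) / (p : ℤ)).toNat = ((t + H) / (p : ℤ)).toNat := hst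
        omega
      obtain ⟨m, hm⟩ := hc s hs t ht
      have h5 : s + H = (t + H) + p * m := by linarith
      rw [h5, Int.add_mul_ediv_left _ _ hp'.ne'] at h4
      have h6 : m = 0 := by linarith
      rw [h6, mul_zero] at hm
      linarith
  rwa [card_range] at h1

lemma two_ext {i j : Fin (1 + 1)} (hij : i ≠ j) {v w : Fin (1 + 1) → ℤ} (hi : v i = w i) (hj : v j = w j) :
    v = w := by
  have key : ∀ i j k : Fin (1 + 1), i ≠ j → k = i ∨ k = j := by decide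
  funext k
  rcases key i j k hij with rfl | rfl
  · exact hi
  · exact hj

lemma cnt (H n : ℕ) (i j : Fin (1 + 1)) (hij : i ≠ j) (R : (Fin (1 + 1) → ℤ) → Prop) [DecidablePred R]
    (hR : ∀ b : ℤ, ∀ T : Finset ℤ, T ⊆ Icc (-(H : ℤ)) H → (∀ t ∈ T, ∃ v, R v ∧ v j = b ∧ v i = t) → T.card ≤ n) :
    ({v ∈ Bx 1 H | R v} : Finset _).card ≤ n * (2 * H + 1) := by
  rw [← cardN H]
  apply card_le_mul_card_image_of_maps_to (f := fun v : Fin (1 + 1) → ℤ => v j)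
  · intro v hv
    rw [mem_filter] at hv
    unfold Bx at hv
    rw [Fintype.mem_piFinset] at hv
    exact hv.1 j
  · intro b _
    rw [← card_image_of_injOn (f := fun v : Fin (1 + 1) → ℤ => v i)]
    · apply hR b
      · intro t ht
        rw [mem_image] at ht
        obtain ⟨v, hv, rfl⟩ := ht
        rw [mem_filter, mem_filter] at hv
        unfold Bx at hv
        rw [Fintype.mem_piFinset] at hv
        exact hv.1.1 i
      · intro t ht
        rw [mem_image] at ht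
        obtain ⟨v, hv, rfl⟩ := ht
        rw [mem_filter, mem_filter] at hv
        exact ⟨v, hv.1.2, hv.2, rfl⟩
    · intro v hv w hw hvw
      rw [mem_coe, mem_filter] at hv hw
      exact two_ext hij hvw (hv.2.trans hw.2.symm)

open Classical in
lemma cnt_p (H p : ℕ) (hp : p.Prime) (i j : Fin (1 + 1)) (hij : i ≠ j) (c0 A B : ℤ)
    (hA : ¬ (p : ℤ) ∣ A) :
    ({v ∈ Bx 1 H | (p : ℤ) ∣ c0 + v i * A + v j * B} : Finset _).card ≤ (2 * H / p + 1) * (2 * H + 1) := by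
  apply cnt H _ i j hij
  intro b T hT hTv
  apply cls H p hp.pos T hT
  intro s hs t ht
  obtain ⟨v, hv, hvj, hvi⟩ := hTv s hs
  obtain ⟨w, hw, hwj, hwi⟩ := hTv t ht
  have h1 := dvd_sub hv hw
  rw [hvj, hvi, hwj, hwi] at h1
  have h2 : (c0 + s * A + b * B) - (c0 + t * A + b * B) = (s - t) * A := by ring
  rw [h2] at h1
  exact ((Nat.prime_iff_prime_int.mp hp).dvd_or_dvd h1).resolve_right hA

open Classical in
lemma cnt_0 (H : ℕ) (i j : Fin (1 + 1)) (hij : i ≠ j) (c0 A B : ℤ) (hA : A ≠ 0) :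
    ({v ∈ Bx 1 H | c0 + v i * A + v j * B = 0} : Finset _).card ≤ 1 * (2 * H + 1) := by
  apply cnt H _ i j hij
  intro b T hT hTv
  rw [card_le_one]
  intro s hs t ht
  obtain ⟨v, hv, hvj, hvi⟩ := hTv s hs
  obtain ⟨w, hw, hwj, hwi⟩ := hTv t ht
  rw [hvj, hvi] at hv
  rw [hwj, hwi] at hw
  have h2 : (s - t) * A = 0 := by linear_combination hv - hw
  have h3 := (mul_eq_zero.mp h2).resolve_right hA
  linarith

lemma DS_nonneg (a : ℤ) (z N : ℕ) : 0 ≤ DS a z N := by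
  unfold DS
  exact sum_nonneg fun _ _ => by positivity

/-- at most one prime divisor is larger than `L` -/
lemma DS_tail (a : ℤ) (ha : a ≠ 0) (L : ℕ) (hL : 1 ≤ L) (haL : a.natAbs < L * L) (z N : ℕ) :
    DS a z N ≤ DS a z L + 1 / (L : ℝ) := by
  classical
  unfold DS
  have hL0 : (0 : ℝ) < L := by exact_mod_cast hL
  set S := (Ioc z N).filter (fun p : ℕ => p.Prime ∧ (p : ℤ) ∣ a) with hS
  have h1 : ∑ p ∈ S, 1 / (p : ℝ) = ∑ p ∈ S.filter (fun p => p ≤ L), 1 / (p : ℝ) +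
      ∑ p ∈ S.filter (fun p => ¬ p ≤ L), 1 / (p : ℝ) :=
    (sum_filter_add_sum_filter_not S _ _).symm
  rw [h1]
  have h2 : ∑ p ∈ S.filter (fun p => p ≤ L), 1 / (p : ℝ) ≤
      ∑ p ∈ (Ioc z L).filter (fun p : ℕ => p.Prime ∧ (p : ℤ) ∣ a), 1 / (p : ℝ) := by
    apply sum_le_sum_of_subset_of_nonneg _ fun _ _ _ => by positivity
    intro p hp
    rw [mem_filter, hS, mem_filter, mem_Ioc] at hp
    rw [mem_filter, mem_Ioc]
    exact ⟨⟨hp.1.1.1, hp.2⟩, hp.1.2⟩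
  have h3 : (S.filter (fun p => ¬ p ≤ L)).card ≤ 1 := by
    rw [card_le_one]
    intro p hp q hq
    by_contra hpq
    rw [mem_filter, hS, mem_filter] at hp hq
    have h4 : p * q ∣ a.natAbs := by
      apply Nat.Coprime.mul_dvd_of_dvd_of_dvd
      · exact (Nat.coprime_primes hp.1.2.1 hq.1.2.1).mpr hpq
      · exact Int.natCast_dvd.mp hp.1.2.2
      · exact Int.natCast_dvd.mp hq.1.2.2
    have h5 := Nat.le_of_dvd (Int.natAbs_pos.mpr ha) h4
    have h6 : L * L ≤ p * q := Nat.mul_le_mul (by omega) (by omega)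
    omega
  have h4 : ∑ p ∈ S.filter (fun p => ¬ p ≤ L), 1 / (p : ℝ) ≤ 1 / (L : ℝ) := by
    have h5 : ∀ p ∈ S.filter (fun p => ¬ p ≤ L), 1 / (p : ℝ) ≤ 1 / (L : ℝ) := by
      intro p hp
      rw [mem_filter] at hp
      have : (L : ℝ) ≤ p := by exact_mod_cast (by omega : L ≤ p)
      gcongr
    have h6 := sum_le_card_nsmul _ _ _ h5
    rw [nsmul_eq_mul] at h6
    refine h6.trans ?_
    have h7 : ((S.filter (fun p => ¬ p ≤ L)).card : ℝ) ≤ 1 := by exact_mod_cast h3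
    have h8 : (0 : ℝ) ≤ 1 / L := by positivity
    nlinarith
  linarith

open Classical in
/-- the mean -/
lemma DS_mean (H z : ℕ) (i j : Fin (1 + 1)) (hij : i ≠ j) (c0 A B : ℤ) (hA : A ≠ 0) (hz : 1 ≤ z)
    (hzA : A.natAbs ≤ z) :
    ∑ v ∈ Bx 1 H, DS (c0 + v i * A + v j * B) z (2 * H + 1) ≤ 2 * (2 * H + 1) ^ 2 / z := by
  have hz0 : (0 : ℝ) < z := by exact_mod_cast hz
  have e1 : ∑ v ∈ Bx 1 H, DS (c0 + v i * A + v j * B) z (2 * H + 1) =
      ∑ p ∈ (Ioc z (2 * H + 1)).filter Nat.Prime,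
        (({v ∈ Bx 1 H | (p : ℤ) ∣ c0 + v i * A + v j * B} : Finset _).card : ℝ) * (1 / (p : ℝ)) := by
    unfold DS
    have e2 : ∀ v ∈ Bx 1 H, ∑ p ∈ (Ioc z (2 * H + 1)).filter
        (fun p : ℕ => p.Prime ∧ (p : ℤ) ∣ c0 + v i * A + v j * B), 1 / (p : ℝ) =
        ∑ p ∈ (Ioc z (2 * H + 1)).filter Nat.Prime,
          (if (p : ℤ) ∣ c0 + v i * A + v j * B then 1 / (p : ℝ) else 0) := by
      intro v _
      rw [← sum_filter, filter_filter]
    rw [sum_congr rfl e2, sum_comm]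
    apply sum_congr rfl
    intro p _
    rw [← sum_filter, sum_const, nsmul_eq_mul]
  rw [e1]
  have h3 : ∀ p ∈ (Ioc z (2 * H + 1)).filter Nat.Prime,
      (({v ∈ Bx 1 H | (p : ℤ) ∣ c0 + v i * A + v j * B} : Finset _).card : ℝ) * (1 / (p : ℝ)) ≤
        2 * (2 * H + 1) ^ 2 * ((p : ℝ) ^ 2)⁻¹ := by
    intro p hp
    rw [mem_filter, mem_Ioc] at hp
    have hp0 : (0 : ℝ) < p := by exact_mod_cast hp.2.pos
    have hpA : ¬ (p : ℤ) ∣ A := by
      intro h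
      have h4 := Nat.le_of_dvd (Int.natAbs_pos.mpr hA) (Int.natCast_dvd.mp h)
      omega
    have h4 := cnt_p H p hp.2 i j hij c0 A B hpA
    have h5 : (({v ∈ Bx 1 H | (p : ℤ) ∣ c0 + v i * A + v j * B} : Finset _).card : ℝ) ≤
        ((2 * H / p : ℕ) + 1) * (2 * H + 1) := by exact_mod_cast h4
    have h6 : ((2 * H / p : ℕ) : ℝ) ≤ (2 * H + 1) / p := by
      refine (Nat.cast_div_le).trans ?_
      push_cast
      gcongr
      linarith
    have h7 : (1 : ℝ) ≤ (2 * H + 1) / p := by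
      rw [le_div_iff₀ hp0, one_mul]
      exact_mod_cast hp.1.2
    calc (({v ∈ Bx 1 H | (p : ℤ) ∣ c0 + v i * A + v j * B} : Finset _).card : ℝ) * (1 / (p : ℝ))
        ≤ (((2 * H / p : ℕ) + 1) * (2 * H + 1)) * (1 / (p : ℝ)) := by gcongr
      _ ≤ (((2 * H + 1) / p + (2 * H + 1) / p) * (2 * H + 1)) * (1 / (p : ℝ)) := by gcongr
      _ = 2 * (2 * H + 1) ^ 2 * ((p : ℝ) ^ 2)⁻¹ := by field_simp; ring
  refine (sum_le_sum h3).trans ?_
  rw [← mul_sum]
  have h4 : ∑ p ∈ (Ioc z (2 * H + 1)).filter Nat.Prime, ((p : ℝ) ^ 2)⁻¹ ≤ 1 / (z : ℝ) := by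
    rcases le_or_gt z (2 * H + 1) with h | h
    · have h5 := sum_Ioc_inv_sq_le_sub (α := ℝ) (k := z) (n := 2 * H + 1) (by omega) h
      have h2 : (0 : ℝ) ≤ ((2 * H + 1 : ℕ) : ℝ)⁻¹ := by positivity
      calc ∑ p ∈ (Ioc z (2 * H + 1)).filter Nat.Prime, ((p : ℝ) ^ 2)⁻¹ ≤
          ∑ p ∈ Ioc z (2 * H + 1), ((p : ℝ) ^ 2)⁻¹ :=
            sum_le_sum_of_subset_of_nonneg (filter_subset _ _) fun _ _ _ => by positivity
        _ ≤ 1 / (z : ℝ) := by rw [one_div]; linarith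
    · rw [Ioc_eq_empty_of_le h.le, filter_empty, sum_empty]; positivity
  calc 2 * (2 * (H : ℝ) + 1) ^ 2 * ∑ p ∈ (Ioc z (2 * H + 1)).filter Nat.Prime, ((p : ℝ) ^ 2)⁻¹
      ≤ 2 * (2 * (H : ℝ) + 1) ^ 2 * (1 / z) := by gcongr
    _ = _ := by ring

open Classical in
/-- the main lemma -/
lemma main (i j : Fin (1 + 1)) (hij : i ≠ j) (A B : ℤ) (hA : A ≠ 0) (C ε : ℝ) (hε : 0 < ε) :
    ∃ z0 : ℕ, ∀ z : ℕ, z0 ≤ z → ∃ H0 : ℕ, ∀ H : ℕ, H0 ≤ H → ∀ c0 : ℤ, |(c0 : ℝ)| ≤ C * H →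
    (({v ∈ Bx 1 H | ¬ (c0 + v i * A + v j * B ≠ 0 ∧ ∀ N : ℕ, DS (c0 + v i * A + v j * B) z N ≤ ε)} :
      Finset _).card : ℝ) ≤ ε * (Bx 1 H).card := by
  refine ⟨max (max 1 A.natAbs) ⌈8 / ε ^ 2⌉₊, fun z hz => ?_⟩
  have hz1 : 1 ≤ z := ((le_max_left _ _).trans (le_max_left _ _)).trans hz
  have hzA : A.natAbs ≤ z := ((le_max_right _ _).trans (le_max_left _ _)).trans hz
  have hzε : 8 / ε ^ 2 ≤ z := (Nat.le_ceil _).trans (by exact_mod_cast (le_max_right _ _).trans hz)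
  have hz0 : (0 : ℝ) < z := by exact_mod_cast hz1
  set K : ℕ := ⌈|C|⌉₊ + A.natAbs + B.natAbs with hK
  refine ⟨max K ⌈2 / ε⌉₊, fun H hH c0 hc0 => ?_⟩
  have hHK : K ≤ H := (le_max_left _ _).trans hH
  have hHε : 2 / ε ≤ H := (Nat.le_ceil _).trans (by exact_mod_cast (le_max_right _ _).trans hH)
  rw [div_le_iff₀ hε] at hHε
  have hLε : 2 ≤ ε * (2 * H + 1) := by nlinarith [Nat.cast_nonneg (α := ℝ) H]
  have hL0 : (0 : ℝ) < 2 * H + 1 := by positivity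
  rw [card_Bx]
  -- values are small
  have hc0' : c0.natAbs ≤ ⌈|C|⌉₊ * H := by
    have h1 : ((c0.natAbs : ℕ) : ℝ) = |(c0 : ℝ)| := by
      rw [Nat.cast_natAbs, Int.cast_abs]
    have h2 : |(c0 : ℝ)| ≤ (⌈|C|⌉₊ : ℝ) * H := by
      refine hc0.trans ?_
      have h3 : C ≤ (⌈|C|⌉₊ : ℝ) := (le_abs_self C).trans (Nat.le_ceil _)
      gcongr
    rw [← h1] at h2
    exact_mod_cast h2
  have hval : ∀ v ∈ Bx 1 H, (c0 + v i * A + v j * B).natAbs < (2 * H + 1) * (2 * H + 1) := by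
    intro v hv
    unfold Bx at hv
    rw [Fintype.mem_piFinset] at hv
    have hi := mem_Icc.mp (hv i)
    have hj := mem_Icc.mp (hv j)
    have hi' : (v i).natAbs ≤ H := by omega
    have hj' : (v j).natAbs ≤ H := by omega
    have h1 : (c0 + v i * A + v j * B).natAbs ≤ c0.natAbs + H * A.natAbs + H * B.natAbs := by
      calc (c0 + v i * A + v j * B).natAbs ≤ (c0 + v i * A).natAbs + (v j * B).natAbs := Int.natAbs_add_le _ _
        _ ≤ c0.natAbs + (v i * A).natAbs + (v j * B).natAbs := by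
            have := Int.natAbs_add_le c0 (v i * A); omega
        _ ≤ c0.natAbs + H * A.natAbs + H * B.natAbs := by
            rw [Int.natAbs_mul, Int.natAbs_mul]
            gcongr
    have h2 : c0.natAbs + H * A.natAbs + H * B.natAbs ≤ K * H := by
      rw [hK]; nlinarith
    have h3 : K * H ≤ H * H := Nat.mul_le_mul_right _ hHK
    nlinarith
  set S0 := ({v ∈ Bx 1 H | c0 + v i * A + v j * B = 0} : Finset (Fin (1 + 1) → ℤ)) with hS0
  set S1 := ({v ∈ Bx 1 H | ε / 2 < DS (c0 + v i * A + v j * B) z (2 * H + 1)} :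
    Finset (Fin (1 + 1) → ℤ)) with hS1
  have hsub : ({v ∈ Bx 1 H | ¬ (c0 + v i * A + v j * B ≠ 0 ∧ ∀ N : ℕ, DS (c0 + v i * A + v j * B) z N ≤ ε)} :
      Finset (Fin (1 + 1) → ℤ)) ⊆ S0 ∪ S1 := by
    intro v hv
    rw [mem_filter] at hv
    rw [mem_union, hS0, hS1, mem_filter, mem_filter]
    by_cases h0 : c0 + v i * A + v j * B = 0
    · exact Or.inl ⟨hv.1, h0⟩
    · refine Or.inr ⟨hv.1, ?_⟩
      by_contra h1
      rw [not_lt] at h1
      apply hv.2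
      refine ⟨h0, fun N => ?_⟩
      have h2 := DS_tail _ h0 (2 * H + 1) (by omega) (hval v hv.1) z N
      have h3 : 1 / (((2 * H + 1 : ℕ)) : ℝ) ≤ ε / 2 := by
        push_cast
        rw [div_le_iff₀ hL0]
        linarith
      linarith
  have hc1 := card_le_card hsub
  have hc2 := card_union_le S0 S1
  have hc3 := cnt_0 H i j hij c0 A B hA
  have hc4 : (S1.card : ℝ) * (ε / 2) ≤ 2 * (2 * H + 1) ^ 2 / z := by
    calc (S1.card : ℝ) * (ε / 2) = ∑ v ∈ S1, ε / 2 := by rw [sum_const, nsmul_eq_mul]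
      _ ≤ ∑ v ∈ S1, DS (c0 + v i * A + v j * B) z (2 * H + 1) := by
          apply sum_le_sum
          intro v hv
          rw [hS1, mem_filter] at hv
          exact hv.2.le
      _ ≤ ∑ v ∈ Bx 1 H, DS (c0 + v i * A + v j * B) z (2 * H + 1) :=
          sum_le_sum_of_subset_of_nonneg (filter_subset _ _) fun _ _ _ => DS_nonneg _ _ _
      _ ≤ _ := DS_mean H z i j hij c0 A B hA hz1 hzA
  have hc5 : (S0.card : ℝ) ≤ 2 * H + 1 := by
    rw [one_mul] at hc3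
    exact_mod_cast hc3
  have hc6 : (S1.card : ℝ) ≤ ε / 2 * (2 * H + 1) ^ 2 := by
    have h1 : 2 * (2 * (H : ℝ) + 1) ^ 2 / z ≤ ε ^ 2 / 4 * (2 * H + 1) ^ 2 := by
      rw [div_le_iff₀ hz0]
      rw [div_le_iff₀ (by positivity)] at hzε
      nlinarith [sq_nonneg (2 * (H : ℝ) + 1)]
    have h2 : (S1.card : ℝ) * (ε / 2) ≤ (ε / 2 * (2 * H + 1) ^ 2) * (ε / 2) := by
      refine (hc4.trans h1).trans (le_of_eq ?_)
      ring
    exact le_of_mul_le_mul_right h2 (by positivity)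
  have hc7 : (2 * (H : ℝ) + 1) ≤ ε / 2 * (2 * H + 1) ^ 2 := by nlinarith
  have hc8 : (({v ∈ Bx 1 H | ¬ (c0 + v i * A + v j * B ≠ 0 ∧ ∀ N : ℕ, DS (c0 + v i * A + v j * B) z N ≤ ε)} :
      Finset (Fin (1 + 1) → ℤ)).card : ℝ) ≤ S0.card + S1.card := by exact_mod_cast hc1.trans hc2
  have e9 : (2 * (H : ℝ) + 1) ^ (1 + 1) = (2 * H + 1) ^ 2 := by norm_num
  rw [e9]
  linarith

end DsL

open Classical in
theorem ds : S_DS := by
  intro g g' hg C ε hε
  rcases hg with hg | hg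
  · obtain ⟨z0, hz0⟩ := DsL.main 0 1 (by decide) (g 2) (g' 2) hg C ε hε
    refine ⟨z0, fun z hz => ?_⟩
    obtain ⟨H0, hH0⟩ := hz0 z hz
    refine ⟨H0, fun H hH h hh => ?_⟩
    exact hH0 H hH (h 2) (hh 2)
  · obtain ⟨z0, hz0⟩ := DsL.main 1 0 (by decide) (g' 2) (g 2) hg C ε hε
    refine ⟨z0, fun z hz => ?_⟩
    obtain ⟨H0, hH0⟩ := hz0 z hz
    refine ⟨H0, fun H hH h hh => ?_⟩
    have h1 := hH0 H hH (h 2) (hh 2)
    have h2 : ∀ v : Fin (1 + 1) → ℤ, mem g g' h v 2 = h 2 + v 1 * g' 2 + v 0 * g 2 := by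
      intro v
      show h 2 + v 0 * g 2 + v 1 * g' 2 = _
      ring
    simp only [h2]
    exact h1

end Pool.Agent.Helper24K9.PT
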