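import Pool.Agent.Helper24K9.PT.Stm

set_option autoImplicit false

/-! The bad kernels, for any family of discriminants. -/

namespace Pool.Agent.Helper24K9.PT
open Finset Filter Topology
open Pool.Agent.W468.ConjF
open Pool.Agent.H307R2.OP (J PB)

theorem mg : S_MG := by
  classical
  intro S D Δ i0 I m Wb hWb0 hSc' hΔ hi0 hm hΔ3
  set Sol : ℤ → Finset (Fin (1 + 1) → ℤ) := fun d => S.filter (fun v => ∃ s : ℕ, D v = d * (s : ℤ) ^ 2) with hSol
  set T := ({1, -1, 2, -2} : Finset ℤ) ×ˢ BadK Δ i0 I with hT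
  set E := Sol 1 ∪ T.biUnion (fun t => Sol (t.1 * t.2)) with hE
  have hSc : ∀ d : ℤ, d ≠ 0 → (#(Sol d) : ℝ) ≤ Wb := by
    intro d hd
    refine le_trans (le_of_eq ?_) (hSc' d hd)
    rw [hSol]
  refine ⟨E, ?_, ?_⟩
  · have h2 : #T = 4 * #(BadK Δ i0 I) := by
      rw [hT, card_product, show #({1, -1, 2, -2} : Finset ℤ) = 4 from rfl]
    calc (#E : ℝ) ≤ #(Sol 1) + ∑ t ∈ T, (#(Sol (t.1 * t.2)) : ℝ) := by
          have := (card_union_le (Sol 1) (T.biUnion (fun t => Sol (t.1 * t.2)))).trans
            (Nat.add_le_add_left card_biUnion_le _)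
          exact_mod_cast this
      _ ≤ Wb + ∑ t ∈ T, Wb := by
          refine add_le_add (hSc 1 one_ne_zero) (sum_le_sum fun t ht => hSc _ ?_)
          rw [hT, mem_product] at ht
          apply mul_ne_zero
          · have h3 := ht.1
            simp only [mem_insert, mem_singleton] at h3
            rcases h3 with h | h | h | h <;> rw [h] <;> norm_num
          · have h3 := ht.2
            rw [BadK, mem_filter] at h3
            have h4 : t.2 ≠ 0 := by
              intro h0
              have := h3.2.2.1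
              omega
            exact_mod_cast h4
      _ = (4 * (#(BadK Δ i0 I) : ℝ) + 1) * Wb := by
          rw [sum_const, nsmul_eq_mul, h2]; push_cast; ring
      _ ≤ _ := by
          apply mul_le_mul_of_nonneg_right _ hWb0
          have := badK_card Δ i0 I m hi0 hm hΔ3
          linarith
  · intro b hb hbE
    rw [hE, mem_union, not_or] at hbE
    have hns : ¬ IsSquare (D b) := by
      rintro ⟨r, hr⟩
      apply hbE.1
      rw [hSol]
      simp only
      rw [mem_filter]
      refine ⟨hb, r.natAbs, ?_⟩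
      rw [hr, one_mul, Int.natCast_natAbs, sq_abs, sq]
    have hD0 : D b ≠ 0 := by
      intro h; apply hns; rw [h]; exact ⟨0, by simp⟩
    refine ⟨hns, fun i hi => ?_⟩
    obtain ⟨δ, s, u, hu, hD, hδ1, hδ2⟩ := kernel _ hD0
    rw [mem_Icc] at hi
    refine block_bound _ Δ (hΔ b hb) δ s u hu hD0 hD hδ2 i (by omega) _ ?_
    by_contra hcon
    push Not at hcon
    obtain ⟨r, hr, hrτ⟩ := hcon
    apply hbE.2
    have hab : (D b).natAbs = u.natAbs * s ^ 2 * δ := by
      rw [hD, Int.natAbs_mul, Int.natAbs_mul, Int.natAbs_pow]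
      simp
    have hu1 : 1 ≤ u.natAbs := by
      simp only [mem_insert, mem_singleton] at hu
      rcases hu with rfl | rfl | rfl | rfl <;> norm_num
    have hδ0 : 1 ≤ δ := by omega
    have hs0 : s ≠ 0 := by
      rintro rfl
      apply hD0; rw [hD]; simp
    have hle := hΔ b hb
    rw [hab] at hle
    rw [mem_biUnion]
    refine ⟨(u, δ), ?_, ?_⟩
    · rw [hT, mem_product]
      refine ⟨hu, ?_⟩
      show δ ∈ BadK Δ i0 I
      rw [BadK, mem_filter, mem_range, Nat.lt_succ_iff]
      refine ⟨?_, hδ1, hδ2, i, mem_Icc.2 hi, r, hr, hrτ⟩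
      have hs1 : 1 ≤ s ^ 2 := Nat.one_le_pow _ _ (Nat.pos_of_ne_zero hs0)
      calc δ = 1 * 1 * δ := by ring
        _ ≤ u.natAbs * s ^ 2 * δ := by gcongr
        _ ≤ Δ := hle
    · rw [hSol]
      simp only
      rw [mem_filter]
      refine ⟨hb, s, ?_⟩
      rw [hD]; ring

end Pool.Agent.Helper24K9.PT
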