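import Pool.Agent.Helper24K9.PT.Stm

set_option autoImplicit false

/-! The statements for one pair of directions and a class `Q` of positions `h`. -/

namespace Pool.Agent.Helper24K9.PT

open Finset Filter Topology
open Pool.Agent.W468.ConjF (CF SJ Blk)
open Pool.Agent.Helper24K9.EL (QD DS)
open Pool.Agent.Helper24K9.PL (cA cB cC mem)
open Pool.Agent.Helper82K9.PR (Bx om SS pv)

variable (g g' : Fin 3 → ℤ) (Q : (Fin 3 → ℤ) → Prop)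

open Classical in
/-- [NLc] -/
def S_NLc : Prop := ∀ C ε : ℝ, 0 < ε → ∃ z0 : ℕ, ∀ z : ℕ, z0 ≤ z →
  ∃ H0 : ℕ, ∀ H : ℕ, H0 ≤ H → ∀ h : Fin 3 → ℤ, Q h → (∀ i, |(h i : ℝ)| ≤ C * H) →
  (({l ∈ Icc (-(H : ℤ)) H | nn g (fun i => h i + l * g' i) = 0 ∨
    ε < Pool.Agent.Helper82K9.PR.sg z (nn g (fun i => h i + l * g' i)).natAbs} : Finset ℤ).card : ℝ) ≤ ε * (2 * H + 1)

open Classical in
/-- [MOSTc] -/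
def S_MOSTc : Prop := ∀ C ε : ℝ, 0 < ε → ∃ z0 : ℕ, ∀ z : ℕ, z0 ≤ z →
  ∃ H0 : ℕ, ∀ H : ℕ, H0 ≤ H → ∀ h : Fin 3 → ℤ, Q h → (∀ i, |(h i : ℝ)| ≤ C * H) →
  (({v ∈ Bx 1 H | ¬ (¬ IsSquare (dsc (mem g g' h v)) ∧ ∀ᶠ N in atTop, |SJ (dsc (mem g g' h v)) z N| ≤ ε)} :
    Finset _).card : ℝ) ≤ ε * (Bx 1 H).card

open Classical in
/-- [DSc] -/
def S_DSc : Prop := ∀ C ε : ℝ, 0 < ε → ∃ z0 : ℕ, ∀ z : ℕ, z0 ≤ z →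
  ∃ H0 : ℕ, ∀ H : ℕ, H0 ≤ H → ∀ h : Fin 3 → ℤ, Q h → (∀ i, |(h i : ℝ)| ≤ C * H) →
  (({v ∈ Bx 1 H | ¬ (mem g g' h v 2 ≠ 0 ∧ ∀ N : ℕ, DS (mem g g' h v 2) z N ≤ ε)} : Finset _).card : ℝ) ≤
    ε * (Bx 1 H).card

open Classical in
/-- [FULLc] -/
def S_FULLc : Prop := ∀ (B0 : ℕ) (C ε : ℝ), 0 < ε → ∃ A : ℕ, 3 ≤ A ∧
  ∀ H : ℕ, A ≤ H → ∀ x : ℕ, A * Real.log H ≤ x → (x : ℝ) ≤ Real.log H ^ B0 → ∀ h : Fin 3 → ℤ, Q h →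
  (∀ i, |(h i : ℝ)| ≤ C * H) →
  (({v ∈ Bx 1 H | ¬ (mem g g' h v 2 ≠ 0 ∧ ¬ IsSquare (dsc (mem g g' h v)) ∧ (Adm (mem g g' h v) → ∃ κ : ℝ, 0 < κ ∧
    Tendsto (fun N => CF (mem g g' h v 2) (mem g g' h v 1) (mem g g' h v 0) N) atTop (𝓝 κ) ∧
    ∀ y ≤ x, |∑ n ∈ Icc 1 y, om (Real.log H) (pv (mem g g' h v) n) - 2 * κ * y| ≤ ε * x))} : Finset _).card : ℝ) ≤
    ε * (Bx 1 H).card

/-- [NL1] the case of linear directions and a fixed leading coefficient: `nn g (h + l g')` is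
`16 a₀ (const + l g 1 (g 1 g' 0 - g 0 g' 1))` -/
def S_NL1 : Prop := ∀ (g g' : Fin 3 → ℤ) (a₀ : ℤ), g 2 = 0 → g' 2 = 0 → g 1 ≠ 0 → cC g g' ≠ 0 → a₀ ≠ 0 →
  S_NLc g g' (fun h => h 2 = a₀)

end Pool.Agent.Helper24K9.PT
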