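import Pool.Agent.Helper24K9.PT.Mg
import Pool.Agent.Helper24K9.PT.Stm2

set_option autoImplicit false

/-! The tails of the products of Conjecture F are small for almost all members of a two-parameter family. -/

namespace Pool.Agent.Helper24K9.PT
open Finset Filter Topology
open Pool.Agent.W468.ConjF
open Pool.Agent.Helper24K9.EL (QD)
open Pool.Agent.Helper24K9.PL (cA cB cC mem)
open Pool.Agent.Helper82K9.PR (Bx card_Bx LP)

/-- the vector with the given coordinates -/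
def pt (H : ℕ) (l : ℤ) (c : ℕ) : Fin (1 + 1) → ℤ := ![(c : ℤ) - H, l]

/-- counting in the box line by line -/
lemma cnt_le (H : ℕ) (Pr : (Fin (1 + 1) → ℤ) → Prop) [DecidablePred Pr] [∀ l, DecidablePred (fun c => Pr (pt H l c))] :
    ((Bx 1 H).filter Pr).card ≤ ∑ l ∈ Icc (-(H : ℤ)) H, ((range (2 * H + 1)).filter (fun c => Pr (pt H l c))).card := by
  rw [← card_sigma]
  apply card_le_card_of_injOn (fun v : Fin (1 + 1) → ℤ => (⟨v 1, (v 0 + (H : ℤ)).toNat⟩ : (_ : ℤ) × ℕ))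
  · intro v hv
    rw [mem_coe, mem_filter] at hv
    obtain ⟨hB, hP⟩ := hv
    unfold Bx at hB
    rw [Fintype.mem_piFinset] at hB
    have h0 := mem_Icc.1 (hB 0)
    have h1 := hB 1
    rw [mem_coe, mem_sigma]
    refine ⟨h1, ?_⟩
    simp only [mem_filter, mem_range]
    refine ⟨by omega, ?_⟩
    have e : pt H (v 1) (v 0 + H).toNat = v := by
      unfold pt
      funext i
      fin_cases i
      · simp only [Fin.zero_eta, Matrix.cons_val_zero]
        rw [Int.toNat_of_nonneg (by omega)]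
        ring
      · simp
    rw [e]
    exact hP
  · intro v hv w hw hvw
    rw [mem_coe, mem_filter] at hv hw
    have hB := hv.1
    have hB' := hw.1
    unfold Bx at hB hB'
    rw [Fintype.mem_piFinset] at hB hB'
    have h0 := mem_Icc.1 (hB 0)
    have h0' := mem_Icc.1 (hB' 0)
    simp only [Sigma.mk.injEq, heq_eq_eq] at hvw
    obtain ⟨e1, e2⟩ := hvw
    funext i
    fin_cases i
    · show v 0 = w 0
      omega
    · exact e1

lemma ev_t4 (M : ℝ) : ∀ᶠ H : ℕ in atTop, M ≤ (H : ℝ) ^ ((1 : ℝ) / 400) :=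
  ((tendsto_rpow_atTop (by norm_num : (0 : ℝ) < 1 / 400)).comp tendsto_natCast_atTop_atTop).eventually_ge_atTop M

lemma ev_logt4 : ∀ᶠ H : ℕ in atTop, ((Nat.log 2 H / 3 : ℕ) : ℝ) ≤ (H : ℝ) ^ ((1 : ℝ) / 400) := by
  have h1 := (isLittleO_log_rpow_atTop (show (0 : ℝ) < 1 / 400 by norm_num)).bound (show (0 : ℝ) < 1 by norm_num)
  have h2 : ∀ᶠ H : ℕ in atTop, ‖Real.log (H : ℝ)‖ ≤ 1 * ‖(H : ℝ) ^ ((1 : ℝ) / 400)‖ :=
    tendsto_natCast_atTop_atTop.eventually h1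
  filter_upwards [h2, eventually_ge_atTop 1] with H h3 h4
  have hH : (1 : ℝ) ≤ H := by exact_mod_cast h4
  rw [Real.norm_of_nonneg (Real.log_nonneg hH), Real.norm_of_nonneg (by positivity), one_mul] at h3
  refine le_trans ?_ h3
  have h5 : (2 : ℝ) ^ Nat.log 2 H ≤ H := by exact_mod_cast Nat.pow_log_le_self 2 (by omega)
  have h6 := Real.log_le_log (by positivity) h5
  rw [Real.log_pow] at h6
  have h7 : ((Nat.log 2 H / 3 : ℕ) : ℝ) ≤ (Nat.log 2 H : ℝ) / 3 := by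
    exact_mod_cast Nat.cast_div_le
  have h8 : (0.5 : ℝ) < Real.log 2 := by have := Real.log_two_gt_d9; linarith
  have h9 : (0 : ℝ) ≤ Nat.log 2 H := by positivity
  nlinarith

/-- the discriminant on a line -/
lemma dsc_line (g g' h : Fin 3 → ℤ) (H : ℕ) (l : ℤ) (c : ℕ) :
    dsc (mem g g' h (pt H l c)) = QD (dsc g) (cV g (fun i => h i + l * g' i) - 2 * dsc g * H)
      (dsc (fun i => h i + l * g' i) - cV g (fun i => h i + l * g' i) * H + dsc g * H ^ 2) (c : ℤ) := by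
  unfold dsc mem pt QD cV
  simp only [Matrix.cons_val_zero, Matrix.cons_val_one]
  ring

lemma nn_line (g u : Fin 3 → ℤ) (H : ℕ) :
    (cV g u - 2 * dsc g * H) ^ 2 - 4 * dsc g * (dsc u - cV g u * H + dsc g * H ^ 2) = nn g u := by
  unfold nn
  ring

/-- the sizes of the coefficients -/
lemma sizes (g u : Fin 3 → ℤ) (Kg M H : ℕ) (hg : ∀ i, |g i| ≤ Kg) (hu : ∀ i, |u i| ≤ (M * H : ℕ)) (hKg : 1 ≤ Kg) (hM : 1 ≤ M) :
    (dsc g).natAbs ≤ 100 * (Kg * M) ^ 2 ∧ (cV g u - 2 * dsc g * H).natAbs ≤ 100 * (Kg * M) ^ 2 * H ∧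
    (dsc u - cV g u * H + dsc g * H ^ 2).natAbs ≤ 100 * (Kg * M) ^ 2 * H ^ 2 := by
  have hKg0 : (1 : ℤ) ≤ Kg := by exact_mod_cast hKg
  have hM0 : (1 : ℤ) ≤ M := by exact_mod_cast hM
  have hH0 : (0 : ℤ) ≤ H := Int.natCast_nonneg _
  have a0 := hg 0
  have a1 := hg 1
  have a2 := hg 2
  have b0 := hu 0
  have b1 := hu 1
  have b2 := hu 2
  push_cast at b0 b1 b2
  have m1 : ∀ x y X Y : ℤ, |x| ≤ X → |y| ≤ Y → |x * y| ≤ X * Y := by
    intro x y X Y hx hy
    rw [abs_mul]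
    exact mul_le_mul hx hy (abs_nonneg _) ((abs_nonneg _).trans hx)
  have hU : |dsc g| ≤ 5 * (Kg : ℤ) ^ 2 := by
    unfold dsc
    have c1 := m1 _ _ _ _ a1 a1
    have c2 := m1 _ _ _ _ a2 a0
    have d1 := abs_le.1 c1
    have d2 := abs_le.1 c2
    rw [abs_le]
    constructor <;> nlinarith [d1.1, d1.2, d2.1, d2.2]
  have hV : |cV g u| ≤ 10 * ((Kg : ℤ) * (M * H)) := by
    unfold cV
    have c1 := abs_le.1 (m1 _ _ _ _ a1 b1)
    have c2 := abs_le.1 (m1 _ _ _ _ a2 b0)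
    have c3 := abs_le.1 (m1 _ _ _ _ a0 b2)
    rw [abs_le]
    constructor <;> linarith [c1.1, c1.2, c2.1, c2.2, c3.1, c3.2]
  have hW : |dsc u| ≤ 5 * ((M : ℤ) * H) ^ 2 := by
    unfold dsc
    have d1 := abs_le.1 (m1 _ _ _ _ b1 b1)
    have d2 := abs_le.1 (m1 _ _ _ _ b2 b0)
    rw [abs_le]
    constructor <;> nlinarith [d1.1, d1.2, d2.1, d2.2]
  have hKM : (Kg : ℤ) ^ 2 ≤ (Kg * M) ^ 2 := by
    rw [mul_pow]
    have : (1 : ℤ) ≤ (M : ℤ) ^ 2 := one_le_pow₀ hM0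
    nlinarith [sq_nonneg (Kg : ℤ)]
  have hKM2 : (M : ℤ) ^ 2 ≤ (Kg * M) ^ 2 := by
    rw [mul_pow]
    have : (1 : ℤ) ≤ (Kg : ℤ) ^ 2 := one_le_pow₀ hKg0
    nlinarith [sq_nonneg (M : ℤ)]
  have hKM3 : (Kg : ℤ) * M ≤ (Kg * M) ^ 2 := by
    have : (1 : ℤ) ≤ Kg * M := one_le_mul_of_one_le_of_one_le hKg0 hM0
    nlinarith
  refine ⟨?_, ?_, ?_⟩
  · zify
    have h7 : 0 ≤ ((Kg : ℤ) * M) ^ 2 := sq_nonneg _
    linarith
  · have h1 : |cV g u - 2 * dsc g * H| ≤ 100 * ((Kg : ℤ) * M) ^ 2 * H := by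
      have h2 := m1 (dsc g) H _ _ hU (le_of_eq (abs_of_nonneg hH0))
      have h3 := abs_le.1 h2
      have h4 := abs_le.1 hV
      have h5 : 5 * (Kg : ℤ) ^ 2 * H ≤ 5 * (Kg * M) ^ 2 * H := by
        apply mul_le_mul_of_nonneg_right _ hH0; linarith
      have h6 : (Kg : ℤ) * (M * H) ≤ (Kg * M) ^ 2 * H := by
        rw [← mul_assoc]; exact mul_le_mul_of_nonneg_right hKM3 hH0
      have h7 : 0 ≤ ((Kg : ℤ) * M) ^ 2 * H := by positivity
      rw [abs_le]
      constructor <;> linarith [h3.1, h3.2, h4.1, h4.2]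
    zify
    exact h1
  · have h1 : |dsc u - cV g u * H + dsc g * H ^ 2| ≤ 100 * ((Kg : ℤ) * M) ^ 2 * H ^ 2 := by
      have h2 := abs_le.1 (m1 (dsc g) (H ^ 2) _ _ hU (le_of_eq (abs_of_nonneg (by positivity))))
      have h3 := abs_le.1 (m1 (cV g u) H _ _ hV (le_of_eq (abs_of_nonneg hH0)))
      have h4 := abs_le.1 hW
      have hHH : (0 : ℤ) ≤ (H : ℤ) ^ 2 := by positivity
      have h5 : 5 * (Kg : ℤ) ^ 2 * H ^ 2 ≤ 5 * (Kg * M) ^ 2 * H ^ 2 := by
        apply mul_le_mul_of_nonneg_right _ hHH; linarith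
      have h6 : (Kg : ℤ) * (M * H) * H ≤ (Kg * M) ^ 2 * H ^ 2 := by
        have : (Kg : ℤ) * (M * H) * H = (Kg * M) * H ^ 2 := by ring
        rw [this]; exact mul_le_mul_of_nonneg_right hKM3 hHH
      have h8 : ((M : ℤ) * H) ^ 2 ≤ (Kg * M) ^ 2 * H ^ 2 := by
        rw [mul_pow]; exact mul_le_mul_of_nonneg_right hKM2 hHH
      have h7 : 0 ≤ ((Kg : ℤ) * M) ^ 2 * H ^ 2 := by positivity
      rw [abs_le]
      constructor <;> linarith [h2.1, h2.2, h3.1, h3.2, h4.1, h4.2]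
    zify
    exact h1

open Classical in
theorem mostc (g g' : Fin 3 → ℤ) (Q : (Fin 3 → ℤ) → Prop) (hTW : S_TW) (hSOL : S_SOL) (hNL : S_NLc g g' Q) :
    S_MOSTc g g' Q := by
  intro C ε hε
  -- the size of the coefficients
  obtain ⟨Kg, hKg1, hKg, hKg'⟩ : ∃ K : ℕ, 1 ≤ K ∧ (∀ i, |g i| ≤ K) ∧ ∀ i, |g' i| ≤ K := by
    refine ⟨∑ i, ((g i).natAbs + (g' i).natAbs) + 1, by omega, fun i => ?_, fun i => ?_⟩
    · have h1 : (g i).natAbs ≤ ∑ i, ((g i).natAbs + (g' i).natAbs) :=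
        (Nat.le_add_right _ _).trans (single_le_sum (f := fun i => (g i).natAbs + (g' i).natAbs) (fun _ _ => Nat.zero_le _) (mem_univ i))
      rw [← Int.natCast_natAbs]
      exact_mod_cast h1.trans (Nat.le_succ _)
    · have h1 : (g' i).natAbs ≤ ∑ i, ((g i).natAbs + (g' i).natAbs) :=
        (Nat.le_add_left _ _).trans (single_le_sum (f := fun i => (g i).natAbs + (g' i).natAbs) (fun _ _ => Nat.zero_le _) (mem_univ i))
      rw [← Int.natCast_natAbs]
      exact_mod_cast h1.trans (Nat.le_succ _)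
  obtain ⟨Cn, hCn⟩ := exists_nat_ge C
  set M : ℕ := Cn + Kg with hM
  have hM1 : 1 ≤ M := by omega
  set K : ℕ := 300 * (Kg * M) ^ 2 * 9 with hK
  have hKpos : 1 ≤ (Kg * M) ^ 2 := Nat.one_le_pow _ _ (Nat.mul_pos hKg1 hM1)
  have hK1 : 1 ≤ K := by omega
  have hKr : (1 : ℝ) ≤ K := by exact_mod_cast hK1
  obtain ⟨z1, hNLz⟩ := hNL C (min (ε / 8) (ε / 6)) (by positivity)
  obtain ⟨Hs, hSOLH⟩ := hSOL K
  obtain ⟨n₁, hn₁⟩ := tail 1602
  obtain ⟨m₁, hm₁⟩ := ev_small K (ε / 6) (by positivity)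
  obtain ⟨m₂, hm₂⟩ := ev_log (ε / 3) (by positivity)
  refine ⟨max (max 2 z1) ⌈432 / ε ^ 3⌉₊, fun z hz => ?_⟩
  have hz2 : 2 ≤ z := ((le_max_left _ _).trans (le_max_left _ _)).trans hz
  have hzz1 : z1 ≤ z := ((le_max_right _ _).trans (le_max_left _ _)).trans hz
  have hzε : 432 / ε ^ 3 ≤ z := (Nat.le_ceil _).trans (by exact_mod_cast (le_max_right _ _).trans hz)
  have hz0 : (0 : ℝ) < z := by exact_mod_cast (by omega : 0 < z)
  obtain ⟨H1, hNLH⟩ := hNLz z hzz1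
  have hev : ∀ᶠ H : ℕ in atTop, (max (max 2 m₁) (max z (K ^ 3))) ≤ Nat.log 2 H / 3 ∧
      (130 * 608 ^ 19 / ε) ≤ (H : ℝ) ^ ((1 : ℝ) / 400) ∧
      ((max (max n₁ m₂) (4 * K + 3) : ℕ) : ℝ) ≤ (H : ℝ) ^ ((1 : ℝ) / 400) ∧
      ((Nat.log 2 H / 3 : ℕ) : ℝ) ≤ (H : ℝ) ^ ((1 : ℝ) / 400) ∧ 1 ≤ H ∧ H1 ≤ H ∧ Hs ≤ H := by
    filter_upwards [ev_i0 (max (max 2 m₁) (max z (K ^ 3))), ev_t4 (130 * 608 ^ 19 / ε),
      ev_t4 ((max (max n₁ m₂) (4 * K + 3) : ℕ) : ℝ), ev_logt4, eventually_ge_atTop 1, eventually_ge_atTop H1,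
      eventually_ge_atTop Hs] with H h1 h2 h3 h4 h5 h6 h7
    exact ⟨h1, h2, h3, h4, h5, h6, h7⟩
  obtain ⟨H₀, hH₀⟩ := eventually_atTop.1 hev
  refine ⟨H₀, fun H hH h hQ hh => ?_⟩
  obtain ⟨c1, c2, c3, c4, c5, c6, c7⟩ := hH₀ H hH
  set i0 := Nat.log 2 H / 3 with hi0
  set t : ℝ := (H : ℝ) ^ ((1 : ℝ) / 400) with ht
  set I := ⌈t⌉₊ with hI
  have hH0 : (1 : ℝ) ≤ H := by exact_mod_cast c5
  have hi2 : 2 ≤ i0 := ((le_max_left _ _).trans (le_max_left _ _)).trans c1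
  have him : m₁ ≤ i0 := ((le_max_right _ _).trans (le_max_left _ _)).trans c1
  have hiz : z ≤ i0 := ((le_max_left _ _).trans (le_max_right _ _)).trans c1
  have hiK : K ^ 3 ≤ i0 := ((le_max_right _ _).trans (le_max_right _ _)).trans c1
  have htI : t ≤ I := Nat.le_ceil t
  have hIn : n₁ ≤ I := by
    have h1 : ((n₁ : ℕ) : ℝ) ≤ I := le_trans (by exact_mod_cast ((le_max_left _ _).trans (le_max_left _ _))) (c3.trans htI)
    exact_mod_cast h1
  have hIm : m₂ ≤ I := by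
    have h1 : ((m₂ : ℕ) : ℝ) ≤ I := le_trans (by exact_mod_cast ((le_max_right _ _).trans (le_max_left _ _))) (c3.trans htI)
    exact_mod_cast h1
  have hIK : 4 * K + 3 ≤ I := by
    have h1 : ((4 * K + 3 : ℕ) : ℝ) ≤ I := le_trans (by exact_mod_cast (le_max_right _ _)) (c3.trans htI)
    exact_mod_cast h1
  have hiI : i0 ≤ I := by
    have h1 : (i0 : ℝ) ≤ I := c4.trans htI
    exact_mod_cast h1
  have ht1 : 1 ≤ t := Real.one_le_rpow hH0 (by norm_num)
  have hI2t : (I : ℝ) ≤ 2 * t := by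
    have := Nat.ceil_lt_add_one (show 0 ≤ t by linarith)
    linarith
  have ht400 : t ^ 400 = H := by
    rw [ht, ← Real.rpow_natCast, ← Real.rpow_mul (by positivity)]
    norm_num
  have ht300 : t ^ 300 = (H : ℝ) ^ (3 / 4 : ℝ) := by
    rw [ht, ← Real.rpow_natCast, ← Real.rpow_mul (by positivity)]
    norm_num
  have hHI : H ≤ I ^ 400 := by
    have h1 : (H : ℝ) ≤ (I : ℝ) ^ 400 := by
      rw [← ht400]
      exact pow_le_pow_left₀ (by linarith) htI 400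
    exact_mod_cast h1
  -- the coefficients on the lines
  set u : ℤ → Fin 3 → ℤ := fun l i => h i + l * g' i with hu
  have hub : ∀ l ∈ Icc (-(H : ℤ)) H, ∀ i, |u l i| ≤ (M * H : ℕ) := by
    intro l hl i
    rw [mem_Icc] at hl
    have h1 : |h i| ≤ (Cn * H : ℕ) := by
      have h2 : |(h i : ℝ)| ≤ Cn * H := (hh i).trans (mul_le_mul_of_nonneg_right hCn (by positivity))
      rw [← Int.cast_abs] at h2
      exact_mod_cast h2
    have h3 : |l * g' i| ≤ (Kg * H : ℕ) := by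
      rw [abs_mul, mul_comm]
      push_cast
      exact mul_le_mul (hKg' i) (abs_le.2 ⟨by linarith, hl.2⟩) (abs_nonneg _) (by positivity)
    calc |u l i| ≤ |h i| + |l * g' i| := abs_add_le _ _
      _ ≤ (Cn * H : ℕ) + (Kg * H : ℕ) := add_le_add h1 h3
      _ = (M * H : ℕ) := by rw [hM]; push_cast; ring
  have hsz := fun l (hl : l ∈ Icc (-(H : ℤ)) H) => sizes g (u l) Kg M H hKg (hub l hl) hKg1 hM1
  set U := dsc g with hU
  set V : ℤ → ℤ := fun l => cV g (u l) - 2 * dsc g * H with hV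
  set W : ℤ → ℤ := fun l => dsc (u l) - cV g (u l) * H + dsc g * H ^ 2 with hW
  have hline : ∀ l c, dsc (mem g g' h (pt H l c)) = QD U (V l) (W l) (c : ℤ) := fun l c => dsc_line g g' h H l c
  have hdisc : ∀ l, V l ^ 2 - 4 * U * W l = nn g (u l) := fun l => nn_line g (u l) H
  have h100 : 100 * (Kg * M) ^ 2 ≤ K := by omega
  -- powers of two
  have hp1 : (2 ^ i0) ^ 3 ≤ H := by
    rw [← pow_mul]
    calc 2 ^ (i0 * 3) ≤ 2 ^ Nat.log 2 H := Nat.pow_le_pow_right (by norm_num) (Nat.div_mul_le_self _ _)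
      _ ≤ H := Nat.pow_log_le_self 2 (by omega)
  have hp2 : H ≤ (2 * 2 ^ i0) ^ 3 := by
    have h1 : H < 2 ^ (Nat.log 2 H + 1) := Nat.lt_pow_succ_log_self (by norm_num) H
    have h2 : Nat.log 2 H + 1 ≤ 3 * (i0 + 1) := by
      have := Nat.div_add_mod (Nat.log 2 H) 3
      have := Nat.mod_lt (Nat.log 2 H) (show 0 < 3 by norm_num)
      omega
    calc H ≤ 2 ^ (Nat.log 2 H + 1) := h1.le
      _ ≤ 2 ^ (3 * (i0 + 1)) := Nat.pow_le_pow_right (by norm_num) h2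
      _ = (2 * 2 ^ i0) ^ 3 := by rw [← pow_succ', ← pow_mul]; ring_nf
  have hi2i : i0 < 2 ^ i0 := Nat.lt_two_pow_self
  have hΔ3 : (K * H ^ 2) ^ 3 ≤ (2 * 2 ^ i0) ^ 19 := by
    calc (K * H ^ 2) ^ 3 = K ^ 3 * H ^ 6 := by ring
      _ ≤ (2 * 2 ^ i0) * ((2 * 2 ^ i0) ^ 3) ^ 6 := by
          apply Nat.mul_le_mul
          · omega
          · exact Nat.pow_le_pow_left hp2 6
      _ = (2 * 2 ^ i0) ^ 19 := by ring
  have hL : Nat.log 2 (K * H ^ 2) ≤ K + 6 * i0 + 6 := by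
    apply Nat.le_of_lt_succ
    apply Nat.log_lt_of_lt_pow'
    · omega
    · calc K * H ^ 2 ≤ 2 ^ K * ((2 * 2 ^ i0) ^ 3) ^ 2 :=
            Nat.mul_le_mul Nat.lt_two_pow_self.le (Nat.pow_le_pow_left hp2 2)
        _ = 2 ^ (K + 6 * i0 + 6) := by
            rw [← pow_succ', ← pow_mul, ← pow_mul, ← pow_add]; ring_nf
        _ < 2 ^ (K + 6 * i0 + 6 + 1) := Nat.pow_lt_pow_right (by norm_num) (by omega)
  -- the exceptional lines
  set L0 := (Icc (-(H : ℤ)) H).filter (fun l => nn g (u l) = 0 ∨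
    min (ε / 8) (ε / 6) < Pool.Agent.Helper82K9.PR.sg z (nn g (u l)).natAbs) with hL0
  have hL0c : (#L0 : ℝ) ≤ ε / 8 * (2 * H + 1) := by
    have h1 := hNLH H c6 h hQ hh
    refine le_trans ?_ (h1.trans ?_)
    · apply le_of_eq; rw [hL0]
    · apply mul_le_mul_of_nonneg_right (min_le_left _ _) (by positivity)
  set S := (Bx 1 H).filter (fun v => v 1 ∉ L0) with hS
  have hpt1 : ∀ l c, (pt H l c) 1 = l := fun l c => rfl
  -- size of the discriminants
  have hΔ : ∀ v ∈ S, (dsc (mem g g' h v)).natAbs ≤ K * H ^ 2 := by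
    intro v hv
    rw [hS, mem_filter] at hv
    have hB := hv.1
    unfold Bx at hB
    rw [Fintype.mem_piFinset] at hB
    have h0 := mem_Icc.1 (hB 0)
    have h1 := hB 1
    have e : v = pt H (v 1) (v 0 + H).toNat := by
      unfold pt
      funext i
      fin_cases i
      · simp only [Fin.zero_eta, Matrix.cons_val_zero]
        rw [Int.toNat_of_nonneg (by omega)]
        ring
      · simp
    set c := (v 0 + H).toNat with hc
    have hcH : c ≤ 2 * H := by omega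
    obtain ⟨s1, s2, s3⟩ := hsz (v 1) h1
    rw [e, hline]
    unfold QD
    have b2 : c ^ 2 ≤ (2 * H) ^ 2 := Nat.pow_le_pow_left hcH 2
    calc (U * (c : ℤ) ^ 2 + V (v 1) * c + W (v 1)).natAbs ≤ (U * (c : ℤ) ^ 2).natAbs + (V (v 1) * c).natAbs + (W (v 1)).natAbs :=
          (Int.natAbs_add_le _ _).trans (Nat.add_le_add_right (Int.natAbs_add_le _ _) _)
      _ = U.natAbs * c ^ 2 + (V (v 1)).natAbs * c + (W (v 1)).natAbs := by
          rw [Int.natAbs_mul, Int.natAbs_mul, Int.natAbs_pow, Int.natAbs_natCast]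
      _ ≤ 100 * (Kg * M) ^ 2 * (2 * H) ^ 2 + 100 * (Kg * M) ^ 2 * H * (2 * H) + 100 * (Kg * M) ^ 2 * H ^ 2 := by
          apply Nat.add_le_add (Nat.add_le_add _ _) s3
          · exact Nat.mul_le_mul s1 b2
          · exact Nat.mul_le_mul s2 hcH
      _ = 700 * (Kg * M) ^ 2 * H ^ 2 := by ring
      _ ≤ K * H ^ 2 := by
          apply Nat.mul_le_mul_right
          rw [hK]
          omega
  -- the second exceptional set
  obtain ⟨E2, hE2c, hE2⟩ := mg S (fun v => dsc (mem g g' h v)) (K * H ^ 2) i0 I 19 ((2 * H + 1) * (H : ℝ) ^ (3 / 4 : ℝ))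
    (by positivity) (by
      intro d hd
      have k1 : (S.filter (fun v => ∃ s : ℕ, dsc (mem g g' h v) = d * (s : ℤ) ^ 2)) ⊆
          (Bx 1 H).filter (fun v => v 1 ∉ L0 ∧ ∃ s : ℕ, dsc (mem g g' h v) = d * (s : ℤ) ^ 2) := by
        intro v hv
        rw [hS, mem_filter, mem_filter] at hv
        rw [mem_filter]
        exact ⟨hv.1.1, hv.1.2, hv.2⟩
      have k2 := (card_le_card k1).trans (cnt_le H _)
      have k3 : ∀ l ∈ Icc (-(H : ℤ)) H, ((((range (2 * H + 1)).filter (fun c => (pt H l c) 1 ∉ L0 ∧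
          ∃ s : ℕ, dsc (mem g g' h (pt H l c)) = d * (s : ℤ) ^ 2)).card : ℕ) : ℝ) ≤ (H : ℝ) ^ (3 / 4 : ℝ) := by
        intro l hl
        by_cases hlL : l ∈ L0
        · have : ((range (2 * H + 1)).filter (fun c => (pt H l c) 1 ∉ L0 ∧
              ∃ s : ℕ, dsc (mem g g' h (pt H l c)) = d * (s : ℤ) ^ 2)) = ∅ := by
            apply filter_eq_empty_iff.2
            intro c _ hc
            exact hc.1 hlL
          rw [this, card_empty]
          simp only [Nat.cast_zero]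
          positivity
        · have hn0 : nn g (u l) ≠ 0 := by
            intro hn
            apply hlL
            rw [hL0, mem_filter]
            exact ⟨hl, Or.inl hn⟩
          obtain ⟨s1, s2, s3⟩ := hsz l hl
          have k4 := hSOLH H c7 U (V l) (W l) (by rw [hdisc]; exact hn0) (s1.trans h100)
            (s2.trans (Nat.mul_le_mul_right _ h100)) (s3.trans (Nat.mul_le_mul_right _ h100)) d hd
          refine le_trans ?_ k4
          apply Nat.cast_le.2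
          apply card_le_card
          intro c hc
          rw [mem_filter] at hc ⊢
          refine ⟨hc.1, ?_⟩
          obtain ⟨s, hs⟩ := hc.2.2
          exact ⟨s, by rw [← hline]; exact hs⟩
      calc ((#(S.filter (fun v => ∃ s : ℕ, dsc (mem g g' h v) = d * (s : ℤ) ^ 2)) : ℕ) : ℝ)
          ≤ ∑ l ∈ Icc (-(H : ℤ)) H, ((((range (2 * H + 1)).filter (fun c => (pt H l c) 1 ∉ L0 ∧
          ∃ s : ℕ, dsc (mem g g' h (pt H l c)) = d * (s : ℤ) ^ 2)).card : ℕ) : ℝ) := by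
            rw [← Nat.cast_sum]; exact Nat.cast_le.2 k2
        _ ≤ ∑ l ∈ Icc (-(H : ℤ)) H, (H : ℝ) ^ (3 / 4 : ℝ) := sum_le_sum k3
        _ = _ := by
            rw [sum_const, nsmul_eq_mul, Pool.Agent.Helper82K9.PR.cardI])
    hΔ (by omega) (by norm_num) hΔ3
  have hNcard : ((Bx 1 H).card : ℝ) = (2 * H + 1) ^ 2 := card_Bx 1 H
  have hE2c' : (#E2 : ℝ) ≤ ε / 4 * (2 * H + 1) ^ 2 := by
    refine hE2c.trans ?_
    rw [← ht300]
    have h3 : 4 * ((I : ℝ) * (8 * (2 * ((19 : ℕ) : ℝ) * (I : ℝ) ^ 4) ^ 19)) + 1 ≤ 65 * 608 ^ 19 * t ^ 77 := by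
      have h4 : (I : ℝ) * (8 * (2 * ((19 : ℕ) : ℝ) * (I : ℝ) ^ 4) ^ 19) ≤ 2 * t * (8 * (2 * 19 * (2 * t) ^ 4) ^ 19) := by
        push_cast
        gcongr
      have h5 : 4 * (2 * t * (8 * (2 * 19 * (2 * t) ^ 4) ^ 19)) = 64 * 608 ^ 19 * t ^ 77 := by ring
      have h6 : (1 : ℝ) ≤ 608 ^ 19 * t ^ 77 := by
        have h7 : (1 : ℝ) ≤ 608 ^ 19 := by norm_num
        have h8 : (1 : ℝ) ≤ t ^ 77 := one_le_pow₀ ht1
        nlinarith
      linarith
    have h4 : (130 * 608 ^ 19 / ε) * ε = 130 * 608 ^ 19 := by field_simp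
    have h5 : 130 * 608 ^ 19 ≤ t * ε := by
      rw [← h4]
      exact mul_le_mul_of_nonneg_right c2 hε.le
    have h6 : t * t ^ 377 ≤ t ^ 400 := by
      rw [← pow_succ']
      exact pow_le_pow_right₀ ht1 (by norm_num)
    calc (4 * ((I : ℝ) * (8 * (2 * ((19 : ℕ) : ℝ) * (I : ℝ) ^ 4) ^ 19)) + 1) * ((2 * H + 1) * t ^ 300)
        ≤ (65 * 608 ^ 19 * t ^ 77) * ((2 * H + 1) * t ^ 300) := mul_le_mul_of_nonneg_right h3 (by positivity)
      _ = (130 * 608 ^ 19) / 2 * t ^ 377 * (2 * H + 1) := by ring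
      _ ≤ (t * ε) / 2 * t ^ 377 * (2 * H + 1) := by
          gcongr
      _ = ε / 2 * (t * t ^ 377) * (2 * H + 1) := by ring
      _ ≤ ε / 2 * t ^ 400 * (2 * H + 1) := by gcongr
      _ = ε / 2 * H * (2 * H + 1) := by rw [ht400]
      _ ≤ ε / 4 * (2 * H + 1) ^ 2 := by
          have h7 : ε / 2 * H ≤ ε / 4 * (2 * H + 1) := by linarith
          calc ε / 2 * H * (2 * H + 1) ≤ ε / 4 * (2 * H + 1) * (2 * H + 1) := mul_le_mul_of_nonneg_right h7 (by positivity)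
            _ = _ := by ring
  -- the first exceptional set
  set P : ℤ → Finset ℕ := fun l => (Ioc z (2 ^ i0)).filter (fun p => p.Prime ∧ ¬ (p : ℤ) ∣ nn g (u l)) with hP
  set E1 := (Bx 1 H).filter (fun v => v 1 ∉ L0 ∧ ε / 6 < |∑ p ∈ P (v 1), (jacobiSym (dsc (mem g g' h v)) p : ℝ) / p|) with hE1
  have hE1c : (#E1 : ℝ) ≤ ε / 4 * (2 * H + 1) ^ 2 := by
    have k2 := cnt_le H (fun v => v 1 ∉ L0 ∧ ε / 6 < |∑ p ∈ P (v 1), (jacobiSym (dsc (mem g g' h v)) p : ℝ) / p|)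
    have k3 : ∀ l ∈ Icc (-(H : ℤ)) H, ((((range (2 * H + 1)).filter (fun c => (pt H l c) 1 ∉ L0 ∧
        ε / 6 < |∑ p ∈ P ((pt H l c) 1), (jacobiSym (dsc (mem g g' h (pt H l c))) p : ℝ) / p|)).card : ℕ) : ℝ) ≤
        ε / 4 * (2 * H + 1) := by
      intro l hl
      have hPp : ∀ p ∈ P l, p.Prime ∧ p ≠ 2 ∧ z < p ∧ p ≤ 2 ^ i0 ∧ ¬ (p : ℤ) ∣ V l ^ 2 - 4 * U * W l := by
        intro p hp
        rw [hP] at hp
        simp only [mem_filter, mem_Ioc] at hp
        refine ⟨hp.2.1, by omega, hp.1.1, hp.1.2, ?_⟩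
        rw [hdisc]
        exact hp.2.2
      have htw := hTW U (V l) (W l) (P l) z (2 ^ i0) (2 * H + 1) (by omega) hPp (fun _ => 1) (by simp)
      simp only [one_mul] at htw
      have k4 : ((((range (2 * H + 1)).filter (fun c => (pt H l c) 1 ∉ L0 ∧
        ε / 6 < |∑ p ∈ P ((pt H l c) 1), (jacobiSym (dsc (mem g g' h (pt H l c))) p : ℝ) / p|)).card : ℕ) : ℝ) * (ε / 6) ^ 2 ≤
          ∑ k ∈ range (2 * H + 1), (∑ p ∈ P l, ((jacobiSym (QD U (V l) (W l) (k : ℤ)) p : ℝ) / p)) ^ 2 := by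
        set Fl := (range (2 * H + 1)).filter (fun c => (pt H l c) 1 ∉ L0 ∧
          ε / 6 < |∑ p ∈ P ((pt H l c) 1), (jacobiSym (dsc (mem g g' h (pt H l c))) p : ℝ) / p|) with hFl
        calc (#Fl : ℝ) * (ε / 6) ^ 2 = ∑ k ∈ Fl, (ε / 6) ^ 2 := by rw [sum_const, nsmul_eq_mul]
          _ ≤ ∑ k ∈ Fl, (∑ p ∈ P l, ((jacobiSym (QD U (V l) (W l) (k : ℤ)) p : ℝ) / p)) ^ 2 := by
              apply sum_le_sum
              intro k hk
              rw [hFl, mem_filter] at hk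
              have k5 := hk.2.2
              rw [hpt1, hline] at k5
              rw [← sq_abs (∑ p ∈ P l, ((jacobiSym (QD U (V l) (W l) (k : ℤ)) p : ℝ) / p))]
              exact pow_le_pow_left₀ (by positivity) k5.le 2
          _ ≤ _ := sum_le_sum_of_subset_of_nonneg (filter_subset _ _) (fun _ _ _ => sq_nonneg _)
      have h2 : ((2 ^ i0 : ℕ) : ℝ) ^ 2 ≤ H / z := by
        rw [le_div_iff₀ hz0]
        have h3 : (2 ^ i0) ^ 2 * z ≤ H := by
          calc (2 ^ i0) ^ 2 * z ≤ (2 ^ i0) ^ 2 * 2 ^ i0 := Nat.mul_le_mul_left _ (by omega)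
            _ = (2 ^ i0) ^ 3 := by ring
            _ ≤ H := hp1
        exact_mod_cast h3
      have h5 : 432 ≤ z * ε ^ 3 := by
        rw [div_le_iff₀ (by positivity)] at hzε
        exact hzε
      have h6 : (H : ℝ) / z ≤ (2 * H + 1) / z := by
        apply div_le_div_of_nonneg_right _ hz0.le
        linarith
      have k6 : ((((range (2 * H + 1)).filter (fun c => (pt H l c) 1 ∉ L0 ∧
        ε / 6 < |∑ p ∈ P ((pt H l c) 1), (jacobiSym (dsc (mem g g' h (pt H l c))) p : ℝ) / p|)).card : ℕ) : ℝ) * (ε / 6) ^ 2 ≤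
          3 * ((2 * H + 1) / z) := by
        refine k4.trans (htw.trans ?_)
        push_cast at h2 ⊢
        linarith
      have k7 : 3 * ((2 * (H : ℝ) + 1) / z) ≤ (ε / 4 * (2 * H + 1)) * (ε / 6) ^ 2 := by
        rw [← mul_div_assoc, div_le_iff₀ hz0]
        nlinarith
      have k8 := k6.trans k7
      exact le_of_mul_le_mul_right k8 (by positivity)
    calc (#E1 : ℝ) ≤ ∑ l ∈ Icc (-(H : ℤ)) H, ((((range (2 * H + 1)).filter (fun c => (pt H l c) 1 ∉ L0 ∧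
        ε / 6 < |∑ p ∈ P ((pt H l c) 1), (jacobiSym (dsc (mem g g' h (pt H l c))) p : ℝ) / p|)).card : ℕ) : ℝ) := by
          rw [← Nat.cast_sum]; exact Nat.cast_le.2 k2
      _ ≤ ∑ l ∈ Icc (-(H : ℤ)) H, ε / 4 * (2 * H + 1) := sum_le_sum k3
      _ = _ := by
          rw [sum_const, nsmul_eq_mul, Pool.Agent.Helper82K9.PR.cardI]
          ring
  -- the exceptional lines in the box
  set E0 := (Bx 1 H).filter (fun v => v 1 ∈ L0) with hE0
  have hE0c : (#E0 : ℝ) ≤ ε / 8 * (2 * H + 1) ^ 2 := by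
    have := Pool.Agent.Helper82K9.PR.card_coord 1 H 1 L0
    calc (#E0 : ℝ) ≤ #L0 * (2 * H + 1) ^ 1 := this
      _ ≤ ε / 8 * (2 * H + 1) * (2 * H + 1) ^ 1 := by gcongr
      _ = _ := by ring
  have hsub : (Bx 1 H).filter (fun v => ¬ (¬ IsSquare (dsc (mem g g' h v)) ∧
      ∀ᶠ N in atTop, |SJ (dsc (mem g g' h v)) z N| ≤ ε)) ⊆ E0 ∪ (E1 ∪ E2) := by
    intro v hv
    rw [mem_filter] at hv
    by_contra hcon
    rw [mem_union, mem_union, not_or, not_or] at hcon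
    obtain ⟨n0, n1, n2⟩ := hcon
    apply hv.2
    have hvL : v 1 ∉ L0 := by
      intro hL
      apply n0
      rw [hE0, mem_filter]
      exact ⟨hv.1, hL⟩
    have hvS : v ∈ S := by
      rw [hS, mem_filter]
      exact ⟨hv.1, hvL⟩
    have hv1 : v 1 ∈ Icc (-(H : ℤ)) H := by
      have hB := hv.1
      unfold Bx at hB
      rw [Fintype.mem_piFinset] at hB
      exact hB 1
    obtain ⟨hsq, hmid⟩ := hE2 v hvS n2
    refine ⟨hsq, ?_⟩
    set D : ℤ := dsc (mem g g' h v) with hD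
    have hnn : nn g (u (v 1)) ≠ 0 ∧ Pool.Agent.Helper82K9.PR.sg z (nn g (u (v 1))).natAbs ≤ ε / 6 := by
      constructor
      · intro hn
        apply hvL
        rw [hL0, mem_filter]
        exact ⟨hv1, Or.inl hn⟩
      · by_contra hlt
        push Not at hlt
        apply hvL
        rw [hL0, mem_filter]
        exact ⟨hv1, Or.inr (lt_of_le_of_lt (min_le_right _ _) hlt)⟩
    have b1 : |SJ D z (2 ^ i0)| ≤ ε / 3 := by
      have k1 : |∑ p ∈ P (v 1), (jacobiSym D p : ℝ) / p| ≤ ε / 6 := by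
        by_contra hlt
        push Not at hlt
        apply n1
        rw [hE1, mem_filter]
        exact ⟨hv.1, hvL, hlt⟩
      set P' := (Ioc z (2 ^ i0)).filter (fun p : ℕ => p.Prime ∧ (p : ℤ) ∣ nn g (u (v 1))) with hP'
      have k2 : SJ D z (2 ^ i0) = ∑ p ∈ P (v 1), (jacobiSym D p : ℝ) / p + ∑ p ∈ P', (jacobiSym D p : ℝ) / p := by
        unfold SJ
        rw [← sum_filter_add_sum_filter_not ((Ioc z (2 ^ i0)).filter Nat.Prime) (fun p : ℕ => ¬ (p : ℤ) ∣ nn g (u (v 1))),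
          filter_filter, filter_filter]
        congr 1
        apply sum_congr _ (fun _ _ => rfl)
        rw [hP']
        apply filter_congr
        intro p _
        rw [not_not]
      have k3 : |∑ p ∈ P', (jacobiSym D p : ℝ) / p| ≤ Pool.Agent.Helper82K9.PR.sg z (nn g (u (v 1))).natAbs := by
        refine (abs_sum_le_sum_abs _ _).trans ?_
        unfold Pool.Agent.Helper82K9.PR.sg
        refine le_trans (sum_le_sum (g := fun p : ℕ => 1 / (p : ℝ)) ?_) (sum_le_sum_of_subset_of_nonneg ?_ (fun p _ _ => by positivity))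
        · intro p _
          rw [abs_div, Nat.abs_cast]
          apply div_le_div_of_nonneg_right (js_abs D p) (Nat.cast_nonneg _)
        · intro p hp
          rw [hP', mem_filter, mem_Ioc] at hp
          unfold LP
          rw [mem_filter, Nat.mem_primeFactors]
          exact ⟨⟨hp.2.1, Int.natCast_dvd.1 hp.2.2, Int.natAbs_ne_zero.2 hnn.1⟩, hp.1.1⟩
      rw [k2]
      refine (abs_add_le _ _).trans ?_
      have := hnn.2
      linarith
    have b2 : |SJ D (2 ^ i0) (2 ^ (I + 1))| ≤ ε / 3 := by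
      refine (mid_sum D i0 I (Nat.log 2 (K * H ^ 2)) (by positivity) hi2 hiI hmid).trans ?_
      have h0 := hm₁ i0 him
      have h1 : (Nat.log 2 (K * H ^ 2) : ℝ) ≤ 2 * ((K + 3 * i0 + 3 : ℕ) : ℝ) := by
        exact_mod_cast hL.trans (by omega)
      have hi0r : (2 : ℝ) ≤ i0 := by exact_mod_cast hi2
      have h2 : 0 ≤ 4 / ((i0 : ℝ) - 1) := by
        apply div_nonneg (by norm_num); linarith
      have h3 : 8 * (Nat.log 2 (K * H ^ 2) : ℝ) / 2 ^ i0 ≤ 2 * (8 * ((K + 3 * i0 + 3 : ℕ) : ℝ) / 2 ^ i0) := by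
        rw [← mul_div_assoc]
        apply div_le_div_of_nonneg_right _ (by positivity)
        linarith
      linarith
    have hzi : z ≤ 2 ^ i0 := by omega
    have hII : 2 ^ i0 ≤ 2 ^ (I + 1) := Nat.pow_le_pow_right (by norm_num) (by omega)
    have hIlt : I + 1 < 2 ^ (I + 1) := Nat.lt_two_pow_self
    filter_upwards [eventually_ge_atTop (2 ^ (I + 1))] with N hN
    have b3 : |SJ D (2 ^ (I + 1)) N| ≤ ε / 3 := by
      refine (hn₁ (2 ^ (I + 1)) (by omega) D hsq ?_ N hN).trans (hm₂ (2 ^ (I + 1)) (by omega))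
      have h1 : (4 * D.natAbs : ℝ) ≤ 4 * K * (I : ℝ) ^ 800 := by
        have h2 : 4 * D.natAbs ≤ 4 * K * I ^ 800 := by
          calc 4 * D.natAbs ≤ 4 * (K * H ^ 2) := Nat.mul_le_mul_left 4 (hΔ v hvS)
            _ ≤ 4 * (K * (I ^ 400) ^ 2) := Nat.mul_le_mul_left 4 (Nat.mul_le_mul_left K (Nat.pow_le_pow_left hHI 2))
            _ = 4 * K * I ^ 800 := by ring
        exact_mod_cast h2
      have h3 : Real.log ((2 ^ (I + 1) : ℕ) : ℝ) = ((I + 1 : ℕ) : ℝ) * Real.log 2 := by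
        push_cast
        rw [Real.log_pow]
        push_cast
        ring
      rw [h3]
      refine h1.trans ?_
      set y : ℝ := ((I + 1 : ℕ) : ℝ) with hy
      have hy4 : 4 ≤ y := by
        rw [hy]; exact_mod_cast (by omega : 4 ≤ I + 1)
      have hyK : 4 * (K : ℝ) ≤ y := by
        rw [hy]; exact_mod_cast (by omega : 4 * K ≤ I + 1)
      have hyI : (I : ℝ) ≤ y := by rw [hy]; exact_mod_cast (by omega : I ≤ I + 1)
      have h8 : (0.6 : ℝ) < Real.log 2 := by have := Real.log_two_gt_d9; linarith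
      have h4 : y ≤ (y * Real.log 2) ^ 2 := by
        have h5 : y * 0.6 ≤ y * Real.log 2 := mul_le_mul_of_nonneg_left h8.le (by linarith)
        have h6 : (y * 0.6) ^ 2 ≤ (y * Real.log 2) ^ 2 := pow_le_pow_left₀ (by positivity) h5 2
        nlinarith
      calc 4 * (K : ℝ) * (I : ℝ) ^ 800 ≤ y * y ^ 800 := by
            apply mul_le_mul hyK _ (by positivity) (by linarith)
            exact pow_le_pow_left₀ (by positivity) hyI 800
        _ = y ^ 801 := by ring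
        _ ≤ ((y * Real.log 2) ^ 2) ^ 801 := pow_le_pow_left₀ (by linarith) h4 801
        _ = (y * Real.log 2) ^ 1602 := by rw [← pow_mul]
    rw [SJ_add D z (2 ^ (I + 1)) N (hzi.trans hII) hN, SJ_add D z (2 ^ i0) (2 ^ (I + 1)) hzi hII]
    refine (abs_add_le _ _).trans ?_
    have h1 := abs_add_le (SJ D z (2 ^ i0)) (SJ D (2 ^ i0) (2 ^ (I + 1)))
    linarith
  have hN0 : (0 : ℝ) ≤ (2 * H + 1) ^ 2 := by positivity
  calc _ ≤ ((#(E0 ∪ (E1 ∪ E2)) : ℕ) : ℝ) := by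
        apply Nat.cast_le.2
        exact card_le_card hsub
    _ ≤ #E0 + (#E1 + #E2) := by
        have h1 := card_union_le E0 (E1 ∪ E2)
        have h2 := card_union_le E1 E2
        exact_mod_cast h1.trans (Nat.add_le_add_left h2 _)
    _ ≤ ε / 8 * (2 * H + 1) ^ 2 + (ε / 4 * (2 * H + 1) ^ 2 + ε / 4 * (2 * H + 1) ^ 2) :=
        add_le_add hE0c (add_le_add hE1c hE2c')
    _ ≤ ε * (Bx 1 H).card := by
        rw [hNcard]
        nlinarith

/-- all positions, non-zero resultant -/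
theorem most (hTW : S_TW) (hSOL : S_SOL) (hNL : S_NL) : S_MOST := by
  intro g g' hres C ε hε
  obtain ⟨z0, h0⟩ := mostc g g' (fun _ => True) hTW hSOL (by
    intro C ε hε
    obtain ⟨z0, h0⟩ := hNL g g' hres C ε hε
    refine ⟨z0, fun z hz => ?_⟩
    obtain ⟨H0, h1⟩ := h0 z hz
    exact ⟨H0, fun H hH h _ hh => h1 H hH h hh⟩) C ε hε
  refine ⟨z0, fun z hz => ?_⟩
  obtain ⟨H0, h1⟩ := h0 z hz
  exact ⟨H0, fun H hH h hh => h1 H hH h trivial hh⟩

end Pool.Agent.Helper24K9.PT
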