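import Pool.Agent.Helper24K9.PT.Stm
import Pool.Agent.Helper88K9.PT.Quad

/-!
# [NL] for most `l` the number `nn g (h + l g')` has few large prime factors
-/

set_option autoImplicit false

namespace Pool.Agent.Helper24K9.PT

open Finset Filter Topology
open Pool.Agent.Helper24K9.PL (cA cB cC mem)
open Pool.Agent.Helper82K9.PR (sg LP)

namespace NlL

lemma nn_bound (g u : Fin 3 → ℤ) (G U : ℝ) (hG : 0 ≤ G) (hU : 0 ≤ U) (hg : ∀ i, |(g i : ℝ)| ≤ G)
    (hu : ∀ i, |(u i : ℝ)| ≤ U) : |((nn g u : ℤ) : ℝ)| ≤ 200 * G ^ 2 * U ^ 2 := by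
  have hm : ∀ i j, |(g i : ℝ) * u j| ≤ G * U := fun i j => by
    rw [abs_mul]
    exact mul_le_mul (hg i) (hu j) (abs_nonneg _) hG
  have hgg : ∀ i j, |(g i : ℝ) * g j| ≤ G * G := fun i j => by
    rw [abs_mul]
    exact mul_le_mul (hg i) (hg j) (abs_nonneg _) hG
  have huu : ∀ i j, |(u i : ℝ) * u j| ≤ U * U := fun i j => by
    rw [abs_mul]
    exact mul_le_mul (hu i) (hu j) (abs_nonneg _) hU
  have h1 : |((cV g u : ℤ) : ℝ)| ≤ 10 * (G * U) := by
    unfold cV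
    push_cast
    have a := abs_le.1 (hm 1 1)
    have b := abs_le.1 (hm 2 0)
    have c := abs_le.1 (hm 0 2)
    rw [abs_le]
    constructor <;> linarith [a.1, a.2, b.1, b.2, c.1, c.2]
  have h2 : |((dsc g : ℤ) : ℝ)| ≤ 5 * (G * G) := by
    unfold dsc
    push_cast
    have a := abs_le.1 (hgg 1 1)
    have b := abs_le.1 (hgg 2 0)
    rw [abs_le]
    constructor <;> nlinarith [a.1, a.2, b.1, b.2]
  have h3 : |((dsc u : ℤ) : ℝ)| ≤ 5 * (U * U) := by
    unfold dsc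
    push_cast
    have a := abs_le.1 (huu 1 1)
    have b := abs_le.1 (huu 2 0)
    rw [abs_le]
    constructor <;> nlinarith [a.1, a.2, b.1, b.2]
  have h4 : ((nn g u : ℤ) : ℝ) = ((cV g u : ℤ) : ℝ) ^ 2 - 4 * (((dsc g : ℤ) : ℝ) * ((dsc u : ℤ) : ℝ)) := by
    unfold nn
    push_cast
    ring
  have h5 : ((cV g u : ℤ) : ℝ) ^ 2 ≤ (10 * (G * U)) ^ 2 := by
    rw [← sq_abs]
    exact pow_le_pow_left₀ (abs_nonneg _) h1 2
  have h6 : |((dsc g : ℤ) : ℝ) * ((dsc u : ℤ) : ℝ)| ≤ 5 * (G * G) * (5 * (U * U)) := by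
    rw [abs_mul]
    exact mul_le_mul h2 h3 (abs_nonneg _) (by positivity)
  have h7 := abs_le.1 h6
  rw [h4, abs_le]
  constructor
  · nlinarith [sq_nonneg ((cV g u : ℤ) : ℝ), h7.2]
  · nlinarith [h7.1]

end NlL

/-- for most `l` the number `nn g (h + l g')` has few large prime factors -/
theorem nl : S_NL := by
  classical
  intro g g' hne C ε hε
  have hA : nn g g' ≠ 0 := by
    have h1 : nn g g' = 16 * (cB g g' ^ 2 - cA g g' * cC g g') := by
      unfold nn cV dsc cA cB cC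
      ring
    rw [h1]
    intro h
    apply hne
    exact sub_eq_zero.1 ((mul_eq_zero.1 h).resolve_left (by norm_num))
  set G : ℝ := ∑ i, (|(g i : ℝ)| + |(g' i : ℝ)|) with hGdef
  have hle : ∀ i, |(g i : ℝ)| + |(g' i : ℝ)| ≤ G := fun i =>
    single_le_sum (f := fun i => |(g i : ℝ)| + |(g' i : ℝ)|) (fun j _ => by positivity) (mem_univ i)
  have hG : 0 ≤ G := sum_nonneg fun i _ => by positivity
  have hg : ∀ i, |(g i : ℝ)| ≤ G := fun i => by
    have := hle i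
    have := abs_nonneg (g' i : ℝ)
    linarith
  have hg' : ∀ i, |(g' i : ℝ)| ≤ G := fun i => by
    have := hle i
    have := abs_nonneg (g i : ℝ)
    linarith
  obtain ⟨z0, h0⟩ := Pool.Agent.Helper88K9.PT.quad_most (nn g g') hA
    (200 * G ^ 2 * (|C| + G) ^ 2) ε hε
  refine ⟨z0, fun z hz => ?_⟩
  obtain ⟨H0, h1⟩ := h0 z hz
  refine ⟨H0, fun H hH h hh => ?_⟩
  refine h1 H hH
    (2 * cV g h * cV g g' - 4 * dsc g * (2 * (h 1 * g' 1) - 4 * (h 2 * g' 0 + g' 2 * h 0)))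
    (nn g h) (fun l => nn g (fun i => h i + l * g' i)) (fun l => by unfold nn cV dsc; ring) ?_ _
    (fun l hl => ⟨(mem_filter.1 hl).1, (mem_filter.1 hl).2⟩)
  intro l hl
  have hH0 : (0 : ℝ) ≤ H := by positivity
  have hl' : |(l : ℝ)| ≤ H := by
    rw [mem_Icc] at hl
    rw [abs_le]
    constructor
    · exact_mod_cast hl.1
    · exact_mod_cast hl.2
  have hu : ∀ i, |((h i + l * g' i : ℤ) : ℝ)| ≤ (|C| + G) * H := by
    intro i
    push_cast
    have h2 : |(h i : ℝ) + l * g' i| ≤ |(h i : ℝ)| + |(l : ℝ) * g' i| := abs_add_le _ _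
    have h3 : |(l : ℝ) * g' i| ≤ H * G := by
      rw [abs_mul]
      exact mul_le_mul hl' (hg' i) (abs_nonneg _) hH0
    have h4 : C * (H : ℝ) ≤ |C| * H := mul_le_mul_of_nonneg_right (le_abs_self C) hH0
    have h5 := hh i
    nlinarith
  have h6 := NlL.nn_bound g (fun i => h i + l * g' i) G ((|C| + G) * H) hG (by positivity) hg hu
  have h7 : ((nn g (fun i => h i + l * g' i)).natAbs : ℝ) =
      |((nn g (fun i => h i + l * g' i) : ℤ) : ℝ)| := by
    rw [Nat.cast_natAbs, Int.cast_abs]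
  rw [h7]
  refine h6.trans (le_of_eq ?_)
  ring

end Pool.Agent.Helper24K9.PT
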