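import Pool.Agent.Helper24K9.PT.Stm
import Mathlib.NumberTheory.Chebyshev

set_option autoImplicit false

/-! [SOL] few `k` with a given kernel, uniformly. The primes in `(Q, Z]`, `Q = H^(3/10)`,
`Z = H^(7/20)`. -/

namespace Pool.Agent.Helper24K9.PT

open Finset Filter Topology
open Pool.Agent.Helper24K9.EL (QD)

namespace SolL

/-- a number has few large prime divisors -/
lemma few_large (Q m N : ℕ) (hN : N ≠ 0) (hQ : N < Q ^ (m + 1)) (hQ1 : 1 ≤ Q) (A : Finset ℕ)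
    (hA : ∀ p ∈ A, p.Prime ∧ Q < p ∧ p ∣ N) : A.card ≤ m := by
  by_contra hcon
  push Not at hcon
  have h1 : ∏ p ∈ A, p ∣ N := Finset.prod_primes_dvd N (fun p hp => (hA p hp).1.prime)
    (fun p hp => (hA p hp).2.2)
  have h2 : Q ^ A.card ≤ ∏ p ∈ A, p := by
    rw [← Finset.prod_const]
    exact Finset.prod_le_prod' (fun p hp => (hA p hp).2.1.le)
  have h3 := Nat.le_of_dvd (Nat.pos_of_ne_zero hN) h1
  have h4 : Q ^ (m + 1) ≤ Q ^ A.card := Nat.pow_le_pow_right hQ1 hcon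
  omega

lemma zeros_le (U V W : ℤ) (h : V ^ 2 - 4 * U * W ≠ 0) (n : ℕ) :
    ((range n).filter (fun k : ℕ => QD U V W (k : ℤ) = 0)).card ≤ 2 := by
  by_contra hcon
  push Not at hcon
  obtain ⟨a, b, c, ha, hb, hc, hab, hac, hbc⟩ := Finset.two_lt_card_iff.1 hcon
  have ha' : U * (a : ℤ) ^ 2 + V * a + W = 0 := (Finset.mem_filter.1 ha).2
  have hb' : U * (b : ℤ) ^ 2 + V * b + W = 0 := (Finset.mem_filter.1 hb).2
  have hc' : U * (c : ℤ) ^ 2 + V * c + W = 0 := (Finset.mem_filter.1 hc).2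
  have hab' : (a : ℤ) - b ≠ 0 := sub_ne_zero.2 (by exact_mod_cast hab)
  have hac' : (a : ℤ) - c ≠ 0 := sub_ne_zero.2 (by exact_mod_cast hac)
  have hbc' : (b : ℤ) - c ≠ 0 := sub_ne_zero.2 (by exact_mod_cast hbc)
  have h1 : U * ((a : ℤ) + b) + V = 0 := by
    have : ((a : ℤ) - b) * (U * ((a : ℤ) + b) + V) = 0 := by linear_combination ha' - hb'
    exact (mul_eq_zero.1 this).resolve_left hab'
  have h2 : U * ((a : ℤ) + c) + V = 0 := by
    have : ((a : ℤ) - c) * (U * ((a : ℤ) + c) + V) = 0 := by linear_combination ha' - hc'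
    exact (mul_eq_zero.1 this).resolve_left hac'
  have h3 : U = 0 := by
    have : ((b : ℤ) - c) * U = 0 := by linear_combination h1 - h2
    exact (mul_eq_zero.1 this).resolve_left hbc'
  have h4 : V = 0 := by
    rw [h3] at h1
    linarith
  apply h
  rw [h3, h4]
  ring

/-- the primes in `(Q, Z]` -/
lemma primes_ge (Q Z : ℕ) : Nat.primeCounting Z ≤ ((Ioc Q Z).filter Nat.Prime).card + Q := by
  have h1 : Nat.primeCounting Z = ((range (Z + 1)).filter Nat.Prime).card := by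
    rw [Nat.primeCounting, Nat.primeCounting', Nat.count_eq_card_filter_range]
  rw [h1]
  have h2 : (range (Z + 1)).filter Nat.Prime ⊆ (Ioc Q Z).filter Nat.Prime ∪ Icc 1 Q := by
    intro p hp
    rw [mem_filter, mem_range] at hp
    rw [mem_union, mem_filter, mem_Ioc, mem_Icc]
    have := hp.2.one_lt
    by_cases h : p ≤ Q
    · right
      omega
    · left
      exact ⟨⟨by omega, by omega⟩, hp.2⟩
  calc _ ≤ _ := card_le_card h2
    _ ≤ _ := card_union_le _ _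
    _ = _ := by rw [Nat.card_Icc]; simp

/-- the numerical facts -/
lemma params (C0 : ℝ) : ∀ᶠ y : ℝ in atTop, 10 ≤ y ∧ 2 ≤ ⌊y ^ 30⌋₊ ∧ 2 ≤ ⌊y ^ 35⌋₊ ∧
    C0 * y ^ 200 < (⌊y ^ 30⌋₊ : ℝ) ^ 7 ∧
    (⌊y ^ 35⌋₊ : ℝ) / y + ⌊y ^ 30⌋₊ + 12 ≤ Nat.primeCounting ⌊y ^ 35⌋₊ ∧
    2 * ((2 * y ^ 100 + 1) / (⌊y ^ 30⌋₊ : ℝ)) + (⌊y ^ 35⌋₊ : ℝ) ^ 2 ≤ 13 * y ^ 70 ∧
    13 * y ^ 72 + 2 ≤ y ^ 75 := by
  have h1 : ∀ᶠ y : ℝ in atTop, ‖Real.log y‖ ≤ (1 / 200) * ‖id y‖ :=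
    Real.isLittleO_log_id_atTop.def (by norm_num : (0 : ℝ) < 1 / 200)
  filter_upwards [h1, eventually_ge_atTop (10 : ℝ), eventually_ge_atTop (128 * |C0| + 1)]
    with y hlog hy hyC
  have hy0 : (0 : ℝ) < y := by linarith
  have hy1 : (1 : ℝ) ≤ y := by linarith
  rw [id, Real.norm_eq_abs, Real.norm_eq_abs, abs_of_pos hy0,
    abs_of_nonneg (Real.log_nonneg hy1)] at hlog
  set Q := ⌊y ^ 30⌋₊ with hQ
  set Z := ⌊y ^ 35⌋₊ with hZ
  have p1 : y ≤ y ^ 30 := le_self_pow₀ hy1 (by norm_num)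
  have p2 : y ^ 2 ≤ y ^ 35 := pow_le_pow_right₀ hy1 (by norm_num)
  have p3 : y ≤ y ^ 35 := le_self_pow₀ hy1 (by norm_num)
  have hQu : (Q : ℝ) ≤ y ^ 30 := Nat.floor_le (by positivity)
  have hZu : (Z : ℝ) ≤ y ^ 35 := Nat.floor_le (by positivity)
  have hQl : y ^ 30 / 2 ≤ (Q : ℝ) := by
    have := Nat.lt_floor_add_one (y ^ 30)
    rw [← hQ] at this
    linarith
  have hZl : y ^ 35 / 2 ≤ (Z : ℝ) := by
    have := Nat.lt_floor_add_one (y ^ 35)
    rw [← hZ] at this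
    linarith
  have hQ2 : (2 : ℝ) ≤ (Q : ℝ) := by linarith
  have hZ2 : (2 : ℝ) ≤ (Z : ℝ) := by linarith
  refine ⟨hy, by exact_mod_cast hQ2, by exact_mod_cast hZ2, ?_, ?_, ?_, ?_⟩
  · have a1 : (y ^ 30 / 2) ^ 7 ≤ (Q : ℝ) ^ 7 := pow_le_pow_left₀ (by positivity) hQl 7
    have a2 : (y ^ 30 / 2) ^ 7 = y ^ 200 * (y ^ 10 / 128) := by ring
    have a3 : y ≤ y ^ 10 := le_self_pow₀ hy1 (by norm_num)
    have a4 : C0 < y ^ 10 / 128 := by
      have := le_abs_self C0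
      linarith
    have a5 : (0 : ℝ) < y ^ 200 := by positivity
    calc C0 * y ^ 200 < (y ^ 10 / 128) * y ^ 200 := mul_lt_mul_of_pos_right a4 a5
      _ = (y ^ 30 / 2) ^ 7 := by rw [a2]; ring
      _ ≤ _ := a1
  · have b1 := Chebyshev.pi_ge Z
    have hZpos : (0 : ℝ) < Z := by linarith
    have b2 : Real.log Z ≤ y / 5 := by
      have c1 : Real.log Z ≤ Real.log (y ^ 35) := Real.log_le_log hZpos hZu
      rw [Real.log_pow] at c1
      push_cast at c1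
      linarith
    have b3 : 0 < Real.log Z := Real.log_pos (by linarith)
    have b4 : Real.log ((Z : ℝ) + 1) ≤ Z / 10 := by
      have c1 : Real.log ((Z : ℝ) + 1) ≤ Real.log (2 * Z) :=
        Real.log_le_log (by linarith) (by linarith)
      rw [Real.log_mul (by norm_num) hZpos.ne'] at c1
      have c2 : Real.log 2 ≤ 1 := by
        have := Real.log_two_lt_d9
        linarith
      have c3 : y ^ 2 / 2 ≤ (Z : ℝ) := by linarith
      have c4 : 5 * y ≤ y ^ 2 / 2 := by nlinarith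
      linarith
    have b5 : (59 / 100 : ℝ) * Z ≤ (Z : ℝ) * Real.log 2 - Real.log ((Z : ℝ) + 1) := by
      have := Real.log_two_gt_d9
      nlinarith
    have b6 : 2 * ((Z : ℝ) / y) ≤ Nat.primeCounting Z := by
      refine le_trans ?_ b1
      rw [le_div_iff₀ b3]
      refine le_trans ?_ b5
      have c5 : 2 * ((Z : ℝ) / y) * Real.log Z ≤ 2 * ((Z : ℝ) / y) * (y / 5) :=
        mul_le_mul_of_nonneg_left b2 (by positivity)
      have c6 : 2 * ((Z : ℝ) / y) * (y / 5) = (2 / 5) * Z := by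
        field_simp
      rw [c6] at c5
      linarith
    have b7 : (Q : ℝ) + 12 ≤ Z / y := by
      rw [le_div_iff₀ hy0]
      have c1 : ((Q : ℝ) + 12) * y ≤ (y ^ 30 + 12) * y :=
        mul_le_mul_of_nonneg_right (by linarith) hy0.le
      have c2 : (y ^ 30 + 12) * y ≤ (y ^ 30 + 2 * y ^ 30) * y := by
        apply mul_le_mul_of_nonneg_right _ hy0.le
        linarith
      have c3 : (y ^ 30 + 2 * y ^ 30) * y = 3 * y ^ 31 := by ring
      have c4 : 3 * y ^ 31 ≤ y ^ 35 / 2 := by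
        have c5 : (10 : ℝ) ^ 4 ≤ y ^ 4 := pow_le_pow_left₀ (by norm_num) hy 4
        have c6 : y ^ 35 / 2 = y ^ 31 * (y ^ 4 / 2) := by ring
        rw [c6]
        have c7 : (0 : ℝ) < y ^ 31 := by positivity
        nlinarith
      linarith
    linarith
  · have a1 : (1 : ℝ) ≤ y ^ 100 := one_le_pow₀ hy1
    have a2 : (2 * y ^ 100 + 1) / (Q : ℝ) ≤ 6 * y ^ 70 := by
      rw [div_le_iff₀ (by linarith)]
      calc 2 * y ^ 100 + 1 ≤ 3 * y ^ 100 := by linarith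
        _ = 6 * y ^ 70 * (y ^ 30 / 2) := by ring
        _ ≤ 6 * y ^ 70 * Q := mul_le_mul_of_nonneg_left hQl (by positivity)
    have a3 : (Z : ℝ) ^ 2 ≤ (y ^ 35) ^ 2 := pow_le_pow_left₀ (by positivity) hZu 2
    have a4 : (y ^ 35) ^ 2 = y ^ 70 := by ring
    linarith
  · have c5 : (10 : ℝ) ^ 3 ≤ y ^ 3 := pow_le_pow_left₀ (by norm_num) hy 3
    have c6 : y ^ 75 = y ^ 72 * y ^ 3 := by ring
    have c7 : (1 : ℝ) ≤ y ^ 72 := one_le_pow₀ hy1
    rw [c6]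
    nlinarith

open Classical in
/-- the second moment argument for given parameters -/
lemma key (hTW : S_TW) (Q Z H : ℕ) (hQ : 2 ≤ Q) (hZ : 2 ≤ Z) (U V W : ℤ)
    (hdisc : V ^ 2 - 4 * U * W ≠ 0) (hdQ : (V ^ 2 - 4 * U * W).natAbs < Q ^ 7)
    (hval : ∀ k ∈ range (2 * H + 1), (QD U V W (k : ℤ)).natAbs < Q ^ 7) (d : ℤ) (y : ℝ)
    (hy : 0 < y) (hpi : (Z : ℝ) / y + Q + 12 ≤ Nat.primeCounting Z) :
    (({k ∈ range (2 * H + 1) | ∃ s : ℕ, QD U V W (k : ℤ) = d * (s : ℤ) ^ 2} : Finset ℕ).card : ℝ)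
      ≤ (2 * ((2 * H + 1) / (Q : ℝ)) + (Z : ℝ) ^ 2) * y ^ 2 + 2 := by
  set P : Finset ℕ := (Ioc Q Z).filter (fun p => p.Prime ∧ ¬ (p : ℤ) ∣ V ^ 2 - 4 * U * W) with hP
  set c : ℕ → ℝ := fun p => (jacobiSym d p : ℝ) with hc
  set S : Finset ℕ := {k ∈ range (2 * H + 1) | ∃ s : ℕ, QD U V W (k : ℤ) = d * (s : ℤ) ^ 2} with hS
  set S' : Finset ℕ := S.filter (fun k => ¬ QD U V W (k : ℤ) = 0) with hS'
  have hZpos : (0 : ℝ) < Z := by
    have : (2 : ℝ) ≤ Z := by exact_mod_cast hZ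
    linarith
  have hSS : S.card ≤ S'.card + 2 := by
    have h1 : (S.filter (fun k : ℕ => QD U V W (k : ℤ) = 0)).card + S'.card = S.card := by
      rw [hS']
      convert Finset.card_filter_add_card_filter_not (s := S)
        (fun k : ℕ => QD U V W (k : ℤ) = 0)
    have h2 : (S.filter (fun k : ℕ => QD U V W (k : ℤ) = 0)).card ≤ 2 := by
      have h3 : S.filter (fun k : ℕ => QD U V W (k : ℤ) = 0) ⊆
          (range (2 * H + 1)).filter (fun k : ℕ => QD U V W (k : ℤ) = 0) :=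
        filter_subset_filter _ (filter_subset _ _)
      exact le_trans (card_le_card h3) (zeros_le U V W hdisc (2 * H + 1))
    omega
  have hcb : ∀ p, |c p| ≤ 1 := by
    intro p
    rcases jacobiSym.trichotomy d p with h | h | h <;> simp [hc, h]
  have htw := hTW U V W P Q Z (2 * H + 1) (by omega) (by
    intro p hp
    rw [hP, mem_filter, mem_Ioc] at hp
    exact ⟨hp.2.1, by omega, hp.1.1, hp.1.2, hp.2.2⟩) c hcb
  -- the number of primes
  have hcount : ∀ k ∈ S', (Z : ℝ) / y ≤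
      ((P.filter (fun p : ℕ => ¬ (p : ℤ) ∣ QD U V W (k : ℤ))).card : ℝ) := by
    intro k hk
    rw [hS', mem_filter, hS, mem_filter] at hk
    have h1 := primes_ge Q Z
    set P0 := (Ioc Q Z).filter Nat.Prime with hP0
    have h2 : (P0.filter (fun p : ℕ => (p : ℤ) ∣ V ^ 2 - 4 * U * W)).card ≤ 6 := by
      refine few_large Q 6 (V ^ 2 - 4 * U * W).natAbs (Int.natAbs_ne_zero.2 hdisc) hdQ (by omega) _ ?_
      intro p hp
      rw [mem_filter, hP0, mem_filter, mem_Ioc] at hp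
      exact ⟨hp.1.2, hp.1.1.1, Int.natCast_dvd.1 hp.2⟩
    have h3 : (P0.filter (fun p : ℕ => (p : ℤ) ∣ QD U V W (k : ℤ))).card ≤ 6 := by
      refine few_large Q 6 (QD U V W (k : ℤ)).natAbs (Int.natAbs_ne_zero.2 hk.2)
        (hval k hk.1.1) (by omega) _ ?_
      intro p hp
      rw [mem_filter, hP0, mem_filter, mem_Ioc] at hp
      exact ⟨hp.1.2, hp.1.1.1, Int.natCast_dvd.1 hp.2⟩
    have h4 : P0 ⊆ P.filter (fun p : ℕ => ¬ (p : ℤ) ∣ QD U V W (k : ℤ)) ∪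
        (P0.filter (fun p : ℕ => (p : ℤ) ∣ V ^ 2 - 4 * U * W) ∪
          P0.filter (fun p : ℕ => (p : ℤ) ∣ QD U V W (k : ℤ))) := by
      intro p hp
      simp only [hP, mem_union, mem_filter]
      have hp' := mem_filter.1 hp
      by_cases g1 : (p : ℤ) ∣ V ^ 2 - 4 * U * W
      · exact Or.inr (Or.inl ⟨hp, g1⟩)
      · by_cases g2 : (p : ℤ) ∣ QD U V W (k : ℤ)
        · exact Or.inr (Or.inr ⟨hp, g2⟩)
        · exact Or.inl ⟨⟨hp'.1, hp'.2, g1⟩, g2⟩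
    have h5 := (card_le_card h4).trans (card_union_le _ _)
    have h6 := card_union_le (P0.filter (fun p : ℕ => (p : ℤ) ∣ V ^ 2 - 4 * U * W))
      (P0.filter (fun p : ℕ => (p : ℤ) ∣ QD U V W (k : ℤ)))
    have h7 : Nat.primeCounting Z ≤
        (P.filter (fun p : ℕ => ¬ (p : ℤ) ∣ QD U V W (k : ℤ))).card + 12 + Q := by omega
    have h8 : (Nat.primeCounting Z : ℝ) ≤
        ((P.filter (fun p : ℕ => ¬ (p : ℤ) ∣ QD U V W (k : ℤ))).card : ℝ) + 12 + Q := by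
      exact_mod_cast h7
    linarith
  -- the inner sums
  have hinner : ∀ k ∈ S', 1 / y ≤
      ∑ p ∈ P, c p * ((jacobiSym (QD U V W (k : ℤ)) p : ℝ) / p) := by
    intro k hk
    have hk' := hcount k hk
    rw [hS', mem_filter, hS, mem_filter] at hk
    obtain ⟨⟨_, s, hs⟩, hne⟩ := hk
    have h1 : ∀ p ∈ P, (if ¬ (p : ℤ) ∣ QD U V W (k : ℤ) then 1 / (Z : ℝ) else 0) ≤
        c p * ((jacobiSym (QD U V W (k : ℤ)) p : ℝ) / p) := by
      intro p hp
      rw [hP, mem_filter, mem_Ioc] at hp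
      have hpp := hp.2.1
      have hp0 : (0 : ℝ) < p := by exact_mod_cast hpp.pos
      have e1 : c p * ((jacobiSym (QD U V W (k : ℤ)) p : ℝ) / p) =
          ((jacobiSym (d * s) p : ℝ)) ^ 2 / p := by
        have e2 : jacobiSym d p * jacobiSym (QD U V W (k : ℤ)) p = (jacobiSym (d * s) p) ^ 2 := by
          rw [hs, ← jacobiSym.mul_left, ← jacobiSym.pow_left]
          congr 1
          ring
        have e3 : (jacobiSym d p : ℝ) * (jacobiSym (QD U V W (k : ℤ)) p : ℝ) =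
            ((jacobiSym (d * s) p : ℝ)) ^ 2 := by exact_mod_cast e2
        rw [hc]
        simp only
        rw [← mul_div_assoc, e3]
      rw [e1]
      split_ifs with hd
      · positivity
      · have g1 : (d * (s : ℤ)).gcd p = 1 := by
          rw [Int.gcd_comm, ← Int.isCoprime_iff_gcd_eq_one]
          rw [Prime.coprime_iff_not_dvd (Nat.prime_iff_prime_int.1 hpp)]
          intro hdv
          apply hd
          rw [hs, pow_two, ← mul_assoc]
          exact hdv.mul_right _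
        have g2 : (jacobiSym (d * s) p) ^ 2 = 1 := jacobiSym.sq_one g1
        have g3 : ((jacobiSym (d * s) p : ℝ)) ^ 2 = 1 := by exact_mod_cast g2
        rw [g3]
        apply one_div_le_one_div_of_le hp0
        exact_mod_cast hp.1.2
    refine le_trans ?_ (sum_le_sum h1)
    rw [← sum_filter, sum_const, nsmul_eq_mul]
    calc 1 / y = ((Z : ℝ) / y) * (1 / Z) := by field_simp
      _ ≤ _ := mul_le_mul_of_nonneg_right hk' (by positivity)
  -- the second moment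
  have hsum : (S'.card : ℝ) * (1 / y) ^ 2 ≤ 2 * ((2 * H + 1) / (Q : ℝ)) + (Z : ℝ) ^ 2 := by
    have h1 : (S'.card : ℝ) * (1 / y) ^ 2 ≤
        ∑ k ∈ S', (∑ p ∈ P, c p * ((jacobiSym (QD U V W (k : ℤ)) p : ℝ) / p)) ^ 2 := by
      rw [← nsmul_eq_mul, ← sum_const]
      exact sum_le_sum fun k hk => pow_le_pow_left₀ (by positivity) (hinner k hk) 2
    have h2 : ∑ k ∈ S', (∑ p ∈ P, c p * ((jacobiSym (QD U V W (k : ℤ)) p : ℝ) / p)) ^ 2 ≤
        ∑ k ∈ range (2 * H + 1),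
          (∑ p ∈ P, c p * ((jacobiSym (QD U V W (k : ℤ)) p : ℝ) / p)) ^ 2 := by
      apply sum_le_sum_of_subset_of_nonneg
      · exact (filter_subset _ _).trans (filter_subset _ _)
      · intro k _ _
        positivity
    have h3 : (((2 * H + 1 : ℕ) : ℝ)) = 2 * (H : ℝ) + 1 := by push_cast; ring
    rw [h3] at htw
    exact h1.trans (h2.trans htw)
  have hfin : (S'.card : ℝ) ≤ (2 * ((2 * H + 1) / (Q : ℝ)) + (Z : ℝ) ^ 2) * y ^ 2 := by
    have h1 : (S'.card : ℝ) = (S'.card : ℝ) * (1 / y) ^ 2 * y ^ 2 := by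
      field_simp
    rw [h1]
    exact mul_le_mul_of_nonneg_right hsum (by positivity)
  have hSS' : (S.card : ℝ) ≤ S'.card + 2 := by exact_mod_cast hSS
  linarith

end SolL

open SolL in
/-- **SOL.** -/
theorem sol : S_TW → S_SOL := by
  intro hTW K
  have h1 := params (5 * (K : ℝ) ^ 2 + 7 * K + 1)
  have h2 : Tendsto (fun H : ℕ => (H : ℝ) ^ (1 / 100 : ℝ)) atTop atTop :=
    (tendsto_rpow_atTop (by norm_num)).comp tendsto_natCast_atTop_atTop
  obtain ⟨H0, hH0⟩ := eventually_atTop.1 ((h2.eventually h1).and (eventually_ge_atTop 1))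
  refine ⟨H0, fun H hH U V W hdisc hU hV hW d _ => ?_⟩
  obtain ⟨⟨hy10, hQ2, hZ2, hQ7, hpi, hnum, hfin⟩, hH1⟩ := hH0 H hH
  set y : ℝ := (H : ℝ) ^ (1 / 100 : ℝ) with hy
  have hH1' : (1 : ℝ) ≤ H := by exact_mod_cast hH1
  have hH0' : (0 : ℝ) ≤ H := by linarith
  have hpow : ∀ n : ℕ, y ^ n = (H : ℝ) ^ ((n : ℝ) / 100) := by
    intro n
    rw [hy, ← Real.rpow_natCast, ← Real.rpow_mul hH0']
    congr 1
    ring
  have h100 : y ^ 100 = H := by
    rw [hpow]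
    norm_num
  have h200 : y ^ 200 = (H : ℝ) ^ 2 := by
    rw [show (200 : ℕ) = 100 * 2 from rfl, pow_mul, h100]
  have h75 : y ^ 75 = (H : ℝ) ^ (3 / 4 : ℝ) := by
    rw [hpow]
    norm_num
  have hU' : (U.natAbs : ℝ) ≤ K := by exact_mod_cast hU
  have hV' : (V.natAbs : ℝ) ≤ K * H := by exact_mod_cast hV
  have hW' : (W.natAbs : ℝ) ≤ K * (H : ℝ) ^ 2 := by exact_mod_cast hW
  rw [Nat.cast_natAbs, Int.cast_abs] at hU' hV' hW'
  have hK0 : (0 : ℝ) ≤ K := Nat.cast_nonneg K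
  have hdQ : (V ^ 2 - 4 * U * W).natAbs < ⌊y ^ 30⌋₊ ^ 7 := by
    have g1 : ((V ^ 2 - 4 * U * W).natAbs : ℝ) ≤ 5 * (K : ℝ) ^ 2 * (H : ℝ) ^ 2 := by
      rw [Nat.cast_natAbs, Int.cast_abs]
      push_cast
      calc |(V : ℝ) ^ 2 - 4 * U * W| ≤ |(V : ℝ) ^ 2| + |4 * (U : ℝ) * W| := abs_sub _ _
        _ = |(V : ℝ)| ^ 2 + 4 * (|(U : ℝ)| * |(W : ℝ)|) := by
            rw [abs_pow, abs_mul, abs_mul]
            norm_num
            ring
        _ ≤ (K * H) ^ 2 + 4 * (K * (K * (H : ℝ) ^ 2)) := by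
            gcongr
        _ = _ := by ring
    have g2 : 5 * (K : ℝ) ^ 2 * (H : ℝ) ^ 2 ≤ (5 * (K : ℝ) ^ 2 + 7 * K + 1) * y ^ 200 := by
      rw [h200]
      apply mul_le_mul_of_nonneg_right _ (by positivity)
      linarith
    exact_mod_cast (g1.trans g2).trans_lt hQ7
  have hval : ∀ k ∈ range (2 * H + 1), (QD U V W (k : ℤ)).natAbs < ⌊y ^ 30⌋₊ ^ 7 := by
    intro k hk
    rw [mem_range] at hk
    have hk' : (k : ℝ) ≤ 2 * H := by exact_mod_cast (by omega : k ≤ 2 * H)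
    have hk0 : (0 : ℝ) ≤ k := Nat.cast_nonneg k
    have g1 : ((QD U V W (k : ℤ)).natAbs : ℝ) ≤ 7 * (K : ℝ) * (H : ℝ) ^ 2 := by
      rw [Nat.cast_natAbs, Int.cast_abs]
      unfold QD
      push_cast
      calc |(U : ℝ) * (k : ℝ) ^ 2 + V * k + W|
          ≤ |(U : ℝ) * (k : ℝ) ^ 2| + |(V : ℝ) * k| + |(W : ℝ)| := abs_add_three _ _ _
        _ = |(U : ℝ)| * (k : ℝ) ^ 2 + |(V : ℝ)| * k + |(W : ℝ)| := by
            rw [abs_mul, abs_mul, abs_of_nonneg hk0, abs_of_nonneg (by positivity : (0 : ℝ) ≤ (k : ℝ) ^ 2)]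
        _ ≤ K * (2 * H) ^ 2 + (K * H) * (2 * H) + K * (H : ℝ) ^ 2 := by
            gcongr
        _ = _ := by ring
    have g2 : 7 * (K : ℝ) * (H : ℝ) ^ 2 ≤ (5 * (K : ℝ) ^ 2 + 7 * K + 1) * y ^ 200 := by
      rw [h200]
      apply mul_le_mul_of_nonneg_right _ (by positivity)
      nlinarith [sq_nonneg (K : ℝ)]
    exact_mod_cast (g1.trans g2).trans_lt hQ7
  have hmain := key hTW ⌊y ^ 30⌋₊ ⌊y ^ 35⌋₊ H hQ2 hZ2 U V W hdisc hdQ hval d y (by linarith) hpi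
  rw [h100] at hnum
  rw [← h75]
  refine hmain.trans (le_trans ?_ hfin)
  have h3 : (2 * ((2 * (H : ℝ) + 1) / (⌊y ^ 30⌋₊ : ℝ)) + (⌊y ^ 35⌋₊ : ℝ) ^ 2) * y ^ 2 ≤
      13 * y ^ 70 * y ^ 2 := mul_le_mul_of_nonneg_right hnum (by positivity)
  have h4 : 13 * y ^ 70 * y ^ 2 = 13 * y ^ 72 := by ring
  linarith

end Pool.Agent.Helper24K9.PT
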