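import Pool.Agent.Helper24K9.PL.Stm
import Pool.Agent.Helper24K9.EL.Tc

set_option autoImplicit false

/-! The full constant of Conjecture F in two-parameter families: the statements of the steps. -/

namespace Pool.Agent.Helper24K9.PT

open Finset Filter Topology
open Pool.Agent.W468.ConjF (CF SJ Blk)
open Pool.Agent.Helper24K9.EL (QD DS)
open Pool.Agent.Helper24K9.PL (cA cB cC mem)
open Pool.Agent.Helper82K9.PR (Bx om SS pv)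

/-- the discriminant -/
def dsc (u : Fin 3 → ℤ) : ℤ := u 1 ^ 2 - 4 * u 2 * u 0

/-- the middle coefficient: `dsc (u + k g) = dsc g k ^ 2 + cV g u k + dsc u` -/
def cV (g u : Fin 3 → ℤ) : ℤ := 2 * (g 1 * u 1) - 4 * (g 2 * u 0 + g 0 * u 2)

/-- the discriminant of that quadratic in `k` (`16` times the resultant of `g` and `u`) -/
def nn (g u : Fin 3 → ℤ) : ℤ := cV g u ^ 2 - 4 * dsc g * dsc u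

/-- [TW] twisted form of EL.second_momentD -/
def S_TW : Prop := ∀ (U V W : ℤ) (P : Finset ℕ) (z Z H : ℕ), 1 ≤ z →
  (∀ p ∈ P, p.Prime ∧ p ≠ 2 ∧ z < p ∧ p ≤ Z ∧ ¬ (p : ℤ) ∣ V ^ 2 - 4 * U * W) → ∀ c : ℕ → ℝ, (∀ p, |c p| ≤ 1) →
  ∑ k ∈ range H, (∑ p ∈ P, c p * ((jacobiSym (QD U V W (k : ℤ)) p : ℝ) / p)) ^ 2 ≤ 2 * (H / z) + (Z : ℝ) ^ 2

open Classical in
/-- [SOL] few `k` with a given kernel, uniformly (P = the primes in (Q, 2Q], Q about H^(1/3), not dividing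
`V ^ 2 - 4 U W`, `c p = jacobiSym d p`; at most 2 of the `k` have `QD = 0`) -/
def S_SOL : Prop := ∀ K : ℕ, ∃ H0 : ℕ, ∀ H : ℕ, H0 ≤ H → ∀ U V W : ℤ, V ^ 2 - 4 * U * W ≠ 0 → U.natAbs ≤ K →
  V.natAbs ≤ K * H → W.natAbs ≤ K * H ^ 2 → ∀ d : ℤ, d ≠ 0 →
  (({k ∈ range (2 * H + 1) | ∃ s : ℕ, QD U V W (k : ℤ) = d * (s : ℤ) ^ 2} : Finset ℕ).card : ℝ) ≤ (H : ℝ) ^ (3 / 4 : ℝ)

open Classical in
/-- [NL] for most `l` the number `nn g (h + l g')` has few large prime factors -/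
def S_NL : Prop := ∀ g g' : Fin 3 → ℤ, cB g g' ^ 2 ≠ cA g g' * cC g g' → ∀ C ε : ℝ, 0 < ε → ∃ z0 : ℕ, ∀ z : ℕ, z0 ≤ z →
  ∃ H0 : ℕ, ∀ H : ℕ, H0 ≤ H → ∀ h : Fin 3 → ℤ, (∀ i, |(h i : ℝ)| ≤ C * H) →
  (({l ∈ Icc (-(H : ℤ)) H | nn g (fun i => h i + l * g' i) = 0 ∨
    ε < Pool.Agent.Helper82K9.PR.sg z (nn g (fun i => h i + l * g' i)).natAbs} : Finset ℤ).card : ℝ) ≤ ε * (2 * H + 1)

open Classical in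
/-- [MG] general form of EL.mid_countD -/
def S_MG : Prop := ∀ (S : Finset (Fin (1 + 1) → ℤ)) (D : (Fin (1 + 1) → ℤ) → ℤ) (Δ i0 I m : ℕ) (Wb : ℝ), 0 ≤ Wb →
  (∀ d : ℤ, d ≠ 0 → (({v ∈ S | ∃ s : ℕ, D v = d * (s : ℤ) ^ 2} : Finset _).card : ℝ) ≤ Wb) →
  (∀ v ∈ S, (D v).natAbs ≤ Δ) → 1 ≤ i0 → 1 ≤ m → Δ ^ 3 ≤ (2 * 2 ^ i0) ^ m →
  ∃ E : Finset (Fin (1 + 1) → ℤ), (E.card : ℝ) ≤ (4 * ((I : ℝ) * (8 * (2 * m * (I : ℝ) ^ 4) ^ m)) + 1) * Wb ∧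
    ∀ v ∈ S, v ∉ E → ¬ IsSquare (D v) ∧ ∀ i ∈ Icc i0 I,
      |∑ p ∈ Blk i, (jacobiSym (D v) p : ℝ) / p| ≤ 4 * (1 / (i : ℝ) ^ 2) + 4 * (Nat.log 2 Δ / 2 ^ i)

open Classical in
/-- [MOST] the tails are small for almost all members -/
def S_MOST : Prop := ∀ g g' : Fin 3 → ℤ, cB g g' ^ 2 ≠ cA g g' * cC g g' → ∀ C ε : ℝ, 0 < ε → ∃ z0 : ℕ, ∀ z : ℕ, z0 ≤ z →
  ∃ H0 : ℕ, ∀ H : ℕ, H0 ≤ H → ∀ h : Fin 3 → ℤ, (∀ i, |(h i : ℝ)| ≤ C * H) →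
  (({v ∈ Bx 1 H | ¬ (¬ IsSquare (dsc (mem g g' h v)) ∧ ∀ᶠ N in atTop, |SJ (dsc (mem g g' h v)) z N| ≤ ε)} :
    Finset _).card : ℝ) ≤ ε * (Bx 1 H).card

open Classical in
/-- [DS] the leading coefficients have few large prime factors -/
def S_DS : Prop := ∀ g g' : Fin 3 → ℤ, (g 2 ≠ 0 ∨ g' 2 ≠ 0) → ∀ C ε : ℝ, 0 < ε → ∃ z0 : ℕ, ∀ z : ℕ, z0 ≤ z →
  ∃ H0 : ℕ, ∀ H : ℕ, H0 ≤ H → ∀ h : Fin 3 → ℤ, (∀ i, |(h i : ℝ)| ≤ C * H) →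
  (({v ∈ Bx 1 H | ¬ (mem g g' h v 2 ≠ 0 ∧ ∀ N : ℕ, DS (mem g g' h v 2) z N ≤ ε)} : Finset _).card : ℝ) ≤
    ε * (Bx 1 H).card

/-- no fixed prime divisor, as in the problem -/
def Adm (u : Fin 3 → ℤ) : Prop := Int.gcd (Int.gcd (u 2) (u 1) : ℤ) (u 0) = 1 ∧ ¬ (Even (u 2 + u 1) ∧ Even (u 0))

open Classical in
/-- [FULL] from PL.S_ALL, S_MOST, S_DS -/
def S_FULL : Prop := ∀ g g' : Fin 3 → ℤ, cB g g' ^ 2 ≠ cA g g' * cC g g' → ∀ (B0 : ℕ) (C ε : ℝ), 0 < ε → ∃ A : ℕ, 3 ≤ A ∧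
  ∀ H : ℕ, A ≤ H → ∀ x : ℕ, A * Real.log H ≤ x → (x : ℝ) ≤ Real.log H ^ B0 → ∀ h : Fin 3 → ℤ,
  (∀ i, |(h i : ℝ)| ≤ C * H) →
  (({v ∈ Bx 1 H | ¬ (mem g g' h v 2 ≠ 0 ∧ ¬ IsSquare (dsc (mem g g' h v)) ∧ (Adm (mem g g' h v) → ∃ κ : ℝ, 0 < κ ∧
    Tendsto (fun N => CF (mem g g' h v 2) (mem g g' h v 1) (mem g g' h v 0) N) atTop (𝓝 κ) ∧
    ∀ y ≤ x, |∑ n ∈ Icc 1 y, om (Real.log H) (pv (mem g g' h v) n) - 2 * κ * y| ≤ ε * x))} : Finset _).card : ℝ) ≤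
    ε * (Bx 1 H).card

end Pool.Agent.Helper24K9.PT
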